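import Pool.Agent.Y556.NX.KFinal
import Pool.Agent.W463.H10.Fixed

/-!
# `NP`-hardness in a fixed number of variables over number fields of odd degree
-/

set_option autoImplicit false

namespace Pool.Agent.Y556.NX

open Pool.Agent.NPC Pool.Agent.H528R2 Pool.Agent.H528R3.FD Pool.Agent.W463.H10

/-- solvability over `K` -/
def SolvK (K : Type) [Field K] (N : ℤ) (f : List ℤ) : Prop :=
  ∃ x y a b w : K, y ^ 2 = x ^ 3 - 2 * x ^ 2 + 65 * x ∧
    a ^ 2 - 2 * b ^ 2 + 2 * N * w ^ 2 =
      N ^ 2 + N * (∑ i ∈ Finset.range 9, ((f.getD i 0 : ℤ) : K) * x ^ i) ^ 2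

section

variable {K : Type} [Field K] [CharZero K]

theorem SolvK.of_rat {N : ℤ} {f : List ℤ} (h : Solv N f) : SolvK K N f := by
  obtain ⟨x, y, a, b, w, h1, h2⟩ := h
  refine ⟨x, y, a, b, w, by exact_mod_cast h1, ?_⟩
  have h3 := congrArg (fun r : ℚ => (r : K)) h2
  push_cast at h3
  exact h3

theorem TF_of_eq {es : List (ℕ × ℕ)} (hes : GoodE es) {t : ℕ} (ht : Inert t) (o : OV K t)
    (hodd : Odd (padicValNat t (NN es))) {F a b w : K}
    (h : a ^ 2 - 2 * b ^ 2 + 2 * ((NN es : ℕ) : K) * w ^ 2 =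
      ((NN es : ℕ) : K) ^ 2 + ((NN es : ℕ) : K) * F ^ 2) : TF ((NN es : ℕ) : K) F := by
  have hNQ := NN_ne hes
  have hN : ((NN es : ℕ) : K) ≠ 0 := by
    have : (((NN es : ℕ) : ℚ) : K) ≠ 0 := by exact_mod_cast hNQ
    simpa using this
  refine ⟨w, ?_, a, b, by linear_combination -h⟩
  intro h0
  have h1 : ((NN es : ℕ) : K) = -(F ^ 2 - 2 * w ^ 2) := by
    have := (mul_eq_zero.1 h0).resolve_left hN
    linear_combination this
  have hne : F ^ 2 - 2 * w ^ 2 ≠ 0 := by
    intro h3
    rw [h3, neg_zero] at h1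
    exact hN h1
  have h2 : IsNF (F ^ 2 - 2 * w ^ 2) := ⟨hne, F, w, rfl⟩
  have h3 := ov_even ht o h2
  rw [← ov_neg o hne, ← h1] at h3
  have h4 : o.v ((NN es : ℕ) : K) = o.e * padicValRat t ((NN es : ℕ) : ℚ) := by
    have := o.v_rat hNQ
    simpa using this
  rw [h4, padicValRat.of_nat] at h3
  have h5 : Odd (o.e * ((padicValNat t (NN es) : ℕ) : ℤ)) :=
    o.odd_e.mul (by exact_mod_cast hodd)
  exact (Int.not_even_iff_odd.2 h5) h3

theorem Good.solv_sound (g : Good K) {es : List (ℕ × ℕ)} (hes : GoodE es)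
    (h : SolvK K (NN es) (FF es)) : Col3 es := by
  obtain ⟨x, y, a, b, w, hxy, heq⟩ := h
  obtain ⟨⟨x, rfl⟩, ⟨y, rfl⟩⟩ := g.stab x y hxy
  have hxy : y ^ 2 = x ^ 3 - 2 * x ^ 2 + 65 * x := by exact_mod_cast hxy
  have hev : (∑ i ∈ Finset.range 9, (((FF es).getD i 0 : ℤ) : K) * (x : K) ^ i) =
      ((evalL (FF es) x : ℚ) : K) := by
    rw [evalL_eq_sum _ (length_FF es)]
    push_cast
    rfl
  rw [hev] at heq
  push_cast at heq
  by_cases hnil : es = []
  · subst hnil
    exact ⟨fun _ => 0, by simp⟩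
  have step : ∀ e ∈ es, ∃ t : ℕ, Inert t ∧ 17 ≤ t ∧ rk t = e.1 * e.2 ∧
      ∃ c ∈ cls e, Vge t 1 (x - zz (c : ℤ)) ∧ ¬ (rk t : ℤ) ∣ (c : ℤ) := by
    intro e he
    obtain ⟨t, ht, h17, hd, hr, ho⟩ := edge_prime hes he
    obtain ⟨o⟩ := g.ov t ht
    have hT := TF_of_eq hes ht o ho heq
    have hNQ := NN_ne hes
    have h4 : o.v ((NN es : ℕ) : K) = o.e * padicValRat t ((NN es : ℕ) : ℚ) := by
      have := o.v_rat hNQ
      simpa using this
    have hNK : ((NN es : ℕ) : K) ≠ 0 := by
      have : (((NN es : ℕ) : ℚ) : K) ≠ 0 := by exact_mod_cast hNQ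
      simpa using this
    have hs := tf_sound hT ht o hNK (by
      rw [h4, padicValRat.of_nat]
      exact o.odd_e.mul (by exact_mod_cast ho))
    have hv : Vge t 1 (evalL (FF es) x) := by
      by_cases hF : evalL (FF es) x = 0
      · exact Or.inl hF
      right
      have hFK : ((evalL (FF es) x : ℚ) : K) ≠ 0 := by exact_mod_cast hF
      rcases hs with hs | hs
      · exact absurd hs hFK
      · rw [h4, o.v_rat hF, padicValRat.of_nat] at hs
        have h6 : 0 ≤ o.e * ((padicValNat t (NN es) : ℕ) : ℤ) := by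
          have := o.pos_e
          positivity
        have h7 : 0 < o.e * padicValRat t (evalL (FF es) x) := by
          obtain ⟨k, hk⟩ := ho
          have h8 : 0 < o.e * ((padicValNat t (NN es) : ℕ) : ℤ) := by
            have := o.pos_e
            have : 0 < ((padicValNat t (NN es) : ℕ) : ℤ) := by omega
            positivity
          nlinarith
        by_contra h9
        push Not at h9
        have h10 : padicValRat t (evalL (FF es) x) ≤ 0 := by omega
        have := mul_nonpos_of_nonneg_of_nonpos o.pos_e.le h10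
        omega
    obtain ⟨c, hc, hcv⟩ := F_sound hes he ht hd hv
    exact ⟨t, ht, h17, hr, c, hc, hcv, (cls_int hes he ht.1 hd hc).1⟩
  have hx : x ≠ 0 := by
    rintro rfl
    obtain ⟨e, he⟩ := List.exists_mem_of_ne_nil es hnil
    obtain ⟨t, ht, h17, hr, c, hc, hcv, hcd⟩ := step e he
    have hz := (val_zero ht h17 (odd_rk (hes.gp1 e he) (hes.gp2 e he) hr) hcd).1
    have hc0 : (c : ℤ) ≠ 0 := by
      rintro h0
      rw [h0] at hcd
      exact hcd (dvd_zero _)
    have := hcv.le (by
      rw [zero_sub]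
      exact neg_ne_zero.2 (zz_pos hc0).ne')
    rw [zero_sub, padicValRat.neg, hz] at this
    norm_num at this
  obtain ⟨M, hM0, hM⟩ := double_point hx hxy
  refine ⟨colOf M, fun e he => ?_⟩
  obtain ⟨t, ht, h17, hr, c, hc, hcv, hcd⟩ := step e he
  have h1 := double_close ht h17 (odd_rk (hes.gp1 e he) (hes.gp2 e he) hr) hx hxy hM0 hM hcd hcv
  rw [hr] at h1
  exact cls_sound (hes.gp1 e he) (hes.gp2 e he) (hes.lt e he) hc h1

theorem Good.solv_iff (g : Good K) {es : List (ℕ × ℕ)} (hes : GoodE es) :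
    SolvK K (NN es) (FF es) ↔ Col3 es :=
  ⟨g.solv_sound hes, fun h => SolvK.of_rat (solv_complete hes h)⟩

/-! ### the polynomials -/

theorem valueF_eE (x : ℕ → K) :
    valueF x eE = x 1 ^ 2 - (x 0 ^ 3 - 2 * x 0 ^ 2 + 65 * x 0) := by
  unfold eE
  simp only [valueF, List.map_cons, List.map_nil, List.sum_cons, List.sum_nil, List.prod_cons,
    List.prod_nil]
  push_cast
  ring

theorem valueF_pF (f : List ℤ) (x : ℕ → K) :
    valueF x (pF f) = ∑ i ∈ Finset.range 9, ((f.getD i 0 : ℤ) : K) * x 0 ^ i := by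
  unfold pF valueF
  simp only [List.map_cons, List.map_nil, List.sum_cons, List.sum_nil, List.prod_cons,
    List.prod_nil, Finset.sum_range_succ, Finset.sum_range_zero]
  ring

theorem valueF_eN (N : ℤ) (f : List ℤ) (x : ℕ → K) :
    valueF x (eN N f) = x 2 ^ 2 - 2 * x 3 ^ 2 + 2 * N * x 4 ^ 2 -
      (N ^ 2 + N * (∑ i ∈ Finset.range 9, ((f.getD i 0 : ℤ) : K) * x 0 ^ i) ^ 2) := by
  unfold eN
  rw [valueF_append, valueF_mulT, valueF_mulT, valueF_pF]
  simp only [valueF, List.map_cons, List.map_nil, List.sum_cons, List.sum_nil, List.prod_cons,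
    List.prod_nil]
  push_cast
  ring

theorem Good.five_iff (g : Good K) (p : ℤ × List ℤ) : SolvK K p.1 p.2 ↔ ZeroIn K (five p) := by
  constructor
  · rintro ⟨x, y, a, b, w, h1, h2⟩
    refine ⟨fun i => if i = 0 then x else if i = 1 then y else if i = 2 then a else
      if i = 3 then b else w, ?_⟩
    unfold five
    rw [g.anis.sqs]
    intro q hq
    simp only [List.mem_cons, List.not_mem_nil, or_false] at hq
    rcases hq with rfl | rfl
    · rw [valueF_eE]; simp only [if_true, one_ne_zero, if_false]; rw [h1]; ring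
    · rw [valueF_eN]
      simp only [if_true, if_false, OfNat.ofNat_ne_zero, OfNat.ofNat_ne_one,
        Nat.reduceEqDiff]
      linear_combination h2
  · rintro ⟨v, hv⟩
    unfold five at hv
    rw [g.anis.sqs] at hv
    have h1 := hv eE (by simp)
    have h2 := hv (eN p.1 p.2) (by simp)
    rw [valueF_eE] at h1
    rw [valueF_eN] at h2
    exact ⟨v 0, v 1, v 2, v 3, v 4, by linear_combination h1, by linear_combination h2⟩

theorem Good.nine_iff (g : Good K) (p : ℤ × List ℤ) : SolvK K p.1 p.2 ↔ ZeroIn K (nine p) := by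
  constructor
  · rintro ⟨x, y, a, b, w, h1, h2⟩
    set F : K := ∑ i ∈ Finset.range 9, ((p.2.getD i 0 : ℤ) : K) * x ^ i with hF
    refine ⟨fun i => if i = 0 then x else if i = 1 then y else if i = 2 then a else
      if i = 3 then b else if i = 4 then w else if i = 5 then x ^ 2 else if i = 6 then x ^ 3 else
      if i = 7 then x ^ 4 else F, ?_⟩
    unfold nine
    rw [g.anis.sqs]
    intro q hq
    simp only [nineL, List.mem_cons, List.not_mem_nil, or_false] at hq
    rcases hq with rfl | rfl | rfl | rfl | rfl | rfl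
    · simp [valueF]; ring
    · simp [valueF]; ring
    · simp [valueF]; ring
    · simp only [valueF, List.map_cons, List.map_nil, List.sum_cons, List.sum_nil, List.prod_cons,
        List.prod_nil]
      norm_num
      linear_combination h1
    · simp only [valueF, List.map_cons, List.map_nil, List.sum_cons, List.sum_nil, List.prod_cons,
        List.prod_nil, if_true, if_false, OfNat.ofNat_ne_zero, OfNat.ofNat_ne_one,
        Nat.reduceEqDiff]
      rw [hF]
      simp only [Finset.sum_range_succ, Finset.sum_range_zero]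
      push_cast
      ring
    · simp only [valueF, List.map_cons, List.map_nil, List.sum_cons, List.sum_nil, List.prod_cons,
        List.prod_nil]
      norm_num
      linear_combination h2
  · rintro ⟨v, hv⟩
    unfold nine at hv
    rw [g.anis.sqs] at hv
    simp only [nineL, List.forall_mem_cons, List.not_mem_nil, false_imp_iff, implies_true,
      and_true] at hv
    obtain ⟨h1, h2, h3, h4, h5, h6⟩ := hv
    simp only [valueF, List.map_cons, List.map_nil, List.sum_cons, List.sum_nil, List.prod_cons,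
      List.prod_nil] at h1 h2 h3 h4 h5 h6
    push_cast at h1 h2 h3 h4 h5 h6
    have e5 : v 5 = v 0 ^ 2 := by linear_combination h1
    have e6 : v 6 = v 0 ^ 3 := by rw [e5] at h2; linear_combination h2
    have e7 : v 7 = v 0 ^ 4 := by rw [e5] at h3; linear_combination h3
    rw [e5, e6] at h4
    rw [e5, e6, e7] at h5
    have e8 : v 8 = ∑ i ∈ Finset.range 9, ((p.2.getD i 0 : ℤ) : K) * v 0 ^ i := by
      simp only [Finset.sum_range_succ, Finset.sum_range_zero]
      linear_combination -h5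
    refine ⟨v 0, v 1, v 2, v 3, v 4, by linear_combination h4, ?_⟩
    rw [← e8]
    linear_combination h6

end

/-! ### local solvability by multiplication -/

/-- `(y ^ 2 - 13) (y ^ 2 - 17) (y ^ 2 - 221)` with `y = x n` -/
def secT (n : ℕ) : List (ℤ × List ℕ) :=
  mulT [(1, [n, n]), (-13, [])] (mulT [(1, [n, n]), (-17, [])] [(1, [n, n]), (-221, [])])

theorem valueF_secT {F : Type} [Field F] (x : ℕ → F) (n : ℕ) :
    valueF x (secT n) = (x n * x n - 13) * ((x n * x n - 17) * (x n * x n - 221)) := by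
  unfold secT
  rw [valueF_mulT, valueF_mulT]
  simp only [valueF, List.map_cons, List.map_nil, List.sum_cons, List.sum_nil, List.prod_cons,
    List.prod_nil]
  push_cast
  ring

theorem mul_local {F : Type} [Field F] (h : IsSquare (13 : F) ∨ IsSquare (17 : F) ∨
    IsSquare (221 : F)) (p : List (ℤ × List ℕ)) (n : ℕ) : ZeroIn F (mulT p (secT n)) := by
  rcases h with ⟨y, hy⟩ | ⟨y, hy⟩ | ⟨y, hy⟩ <;>
    refine ⟨fun _ => y, ?_⟩ <;> rw [valueF_mulT, valueF_secT, ← hy] <;> ring

theorem Good.mul_iff {K : Type} [Field K] [NumberField K] (g : Good K)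
    (p : List (ℤ × List ℕ)) (n : ℕ) : ZeroIn K (mulT p (secT n)) ↔ ZeroIn K p := by
  have n13 : ¬ IsSquare (13 : K) := fun h =>
    not_sq_prime (p := 13) (by norm_num) (g.sq _ (by exact_mod_cast h))
  have n17 : ¬ IsSquare (17 : K) := fun h =>
    not_sq_prime (p := 17) (by norm_num) (g.sq _ (by exact_mod_cast h))
  have n221 : ¬ IsSquare (221 : K) := fun h => not_sq_221 (g.sq _ (by exact_mod_cast h))
  refine exists_congr fun x => ?_
  rw [valueF_mulT, valueF_secT, mul_eq_zero]
  constructor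
  · rintro (h | h)
    · exact h
    · rcases mul_eq_zero.1 h with h | h
      · exact absurd ⟨x n, (sub_eq_zero.1 h).symm⟩ n13
      · rcases mul_eq_zero.1 h with h | h
        · exact absurd ⟨x n, (sub_eq_zero.1 h).symm⟩ n17
        · exact absurd ⟨x n, (sub_eq_zero.1 h).symm⟩ n221
  · exact Or.inl

theorem bd_secT {n m : ℕ} (h : n < m) : Bd 6 m (secT n) := by
  have h1 : ∀ z : ℤ, Bd 2 m [(1, [n, n]), (z, [])] := by
    intro z t ht
    simp only [List.mem_cons, List.not_mem_nil, or_false] at ht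
    rcases ht with rfl | rfl
    · simpa using h
    · simp
  exact Bd.mulT (h1 _) (Bd.mulT (h1 _) (h1 _) (m := 4) (by norm_num)) (by norm_num)

/-! ### hardness -/

/-- one reduction for all fields -/
theorem np_uniform {L : Set (List Bool)} (hL : InNP L) :
    ∃ f : List Bool → ℤ × List ℤ, PC (fun x : List Bool => x) bits f ∧
      ∀ (K : Type) [Field K] [CharZero K], Good K → ∀ w, w ∈ L ↔ SolvK K (f w).1 (f w).2 := by
  have h1 := H692R2.hardPr_col3.trans
    (Pr' := fun p : ℤ × List ℤ => ∃ es, GoodE es ∧ p = (((NN es : ℕ) : ℤ), FF es))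
    (Q := fun p : ℤ × List ℤ => Solv p.1 p.2)
    (poly_NN_FF_of poly_zz poly_redE upoly_sum) (fun E hE => ⟨redE E, redE_good hE, rfl⟩)
    (fun E hE => by rw [redE_col hE, ← H528R3.FD.solv_iff (redE_good hE)])
  obtain ⟨f, hf, hpr, hfL⟩ := h1 L hL
  refine ⟨f, hf, fun K _ _ g w => ?_⟩
  obtain ⟨es, hes, he⟩ := hpr w
  rw [hfL w, he]
  change Solv _ _ ↔ SolvK K _ _
  rw [g.solv_iff hes, H528R3.FD.solv_iff hes]

end Pool.Agent.Y556.NX
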