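import Mathlib

/-!
# One of `13`, `17`, `221` is a square in every completion of `ℚ`
-/

set_option autoImplicit false

open Polynomial

namespace Pool.Agent.Y556.NX.Loc

lemma padic_sq {p : ℕ} [hp : Fact p.Prime] (hp2 : p ≠ 2) {n : ℤ} (hn : ¬ (p : ℤ) ∣ n)
    (h : IsSquare (n : ZMod p)) : ∃ z : ℤ_[p], z ^ 2 = n := by
  obtain ⟨a, ha⟩ := h
  obtain ⟨s, hs⟩ := ZMod.intCast_surjective a
  have h1 : (p : ℤ) ∣ s ^ 2 - n := by
    rw [← ZMod.intCast_zmod_eq_zero_iff_dvd]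
    push_cast
    rw [ha, hs]
    ring
  have h2 : ¬ (p : ℤ) ∣ 2 * s := by
    intro h2
    have hpi : Prime (p : ℤ) := Nat.prime_iff_prime_int.1 hp.out
    rcases hpi.dvd_or_dvd h2 with h3 | h3
    · have h5 : p ∣ 2 := by exact_mod_cast h3
      exact hp2 ((Nat.prime_dvd_prime_iff_eq hp.out Nat.prime_two).1 h5)
    · apply hn
      have := dvd_sub ((dvd_pow h3 two_ne_zero : (p : ℤ) ∣ s ^ 2)) h1
      simpa using this
  have e1 : ∀ w : ℤ_[p], (aeval w) (X ^ 2 - C (n : ℤ_[p]) : ℤ_[p][X]) = w ^ 2 - n := by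
    intro w; simp
  have e2 : ∀ w : ℤ_[p], (aeval w) (derivative (X ^ 2 - C (n : ℤ_[p]) : ℤ_[p][X])) = 2 * w := by
    intro w; simp; norm_num
  obtain ⟨z, hz, -⟩ := hensels_lemma (p := p) (R := ℤ_[p]) (F := X ^ 2 - C (n : ℤ_[p]))
    (a := (s : ℤ_[p])) (by
      rw [e1, e2]
      have h3 : ‖((s ^ 2 - n : ℤ) : ℤ_[p])‖ < 1 := by
        rw [PadicInt.norm_intCast_lt_one_iff]
        exact h1
      have h4 : ‖((2 * s : ℤ) : ℤ_[p])‖ = 1 := by
        have h5 : ¬ ‖((2 * s : ℤ) : ℤ_[p])‖ < 1 := by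
          rw [PadicInt.norm_intCast_lt_one_iff]
          exact h2
        exact le_antisymm (PadicInt.norm_le_one _) (not_lt.1 h5)
      push_cast at h3 h4
      rw [h4]
      simpa using h3)
  rw [e1] at hz
  exact ⟨z, sub_eq_zero.1 hz⟩

lemma padic_sq2 : ∃ z : ℤ_[2], z ^ 2 = 17 := by
  have e1 : ∀ w : ℤ_[2], (aeval w) (X ^ 2 - C (17 : ℤ_[2]) : ℤ_[2][X]) = w ^ 2 - 17 := by
    intro w; simp
  have e2 : ∀ w : ℤ_[2], (aeval w) (derivative (X ^ 2 - C (17 : ℤ_[2]) : ℤ_[2][X])) = 2 * w := by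
    intro w; simp; norm_num
  obtain ⟨z, hz, -⟩ := hensels_lemma (p := 2) (R := ℤ_[2]) (F := X ^ 2 - C (17 : ℤ_[2]))
    (a := 1) (by
      rw [e1, e2]
      have h3 : ((1 : ℤ_[2]) ^ 2 - 17) = - (2 : ℤ_[2]) ^ 4 := by norm_num
      have h4 : ‖(2 : ℤ_[2])‖ = 2⁻¹ := by
        have := PadicInt.norm_p (p := 2)
        exact_mod_cast this
      rw [h3, norm_neg, mul_one, norm_pow, h4]
      norm_num)
  rw [e1] at hz
  exact ⟨z, sub_eq_zero.1 hz⟩

lemma sq13 : ((17 : ℤ) : ZMod 13) = 2 * 2 := by decide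

lemma sq17 : ((13 : ℤ) : ZMod 17) = 8 * 8 := by decide

/-- one of `13`, `17`, `221` is a square in `ℤ_p` -/
lemma padic_ex (p : ℕ) [hp : Fact p.Prime] :
    ∃ n : ℤ, (n = 13 ∨ n = 17 ∨ n = 221) ∧ ∃ z : ℤ_[p], z ^ 2 = n := by
  by_cases h2 : p = 2
  · subst h2
    obtain ⟨z, hz⟩ := padic_sq2
    exact ⟨17, by simp, z, by simpa using hz⟩
  by_cases h13 : p = 13
  · subst h13
    obtain ⟨z, hz⟩ := padic_sq (p := 13) (n := 17) (by norm_num) (by norm_num)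
      ⟨(2 : ZMod 13), sq13⟩
    exact ⟨17, by simp, z, hz⟩
  by_cases h17 : p = 17
  · subst h17
    obtain ⟨z, hz⟩ := padic_sq (p := 17) (n := 13) (by norm_num) (by norm_num)
      ⟨(8 : ZMod 17), sq17⟩
    exact ⟨13, by simp, z, hz⟩
  have d13 : ¬ (p : ℤ) ∣ 13 := by
    intro h
    have h5 : p ∣ 13 := by exact_mod_cast h
    exact h13 ((Nat.prime_dvd_prime_iff_eq hp.out (by norm_num)).1 h5)
  have d17 : ¬ (p : ℤ) ∣ 17 := by
    intro h
    have h5 : p ∣ 17 := by exact_mod_cast h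
    exact h17 ((Nat.prime_dvd_prime_iff_eq hp.out (by norm_num)).1 h5)
  have d221 : ¬ (p : ℤ) ∣ 221 := by
    intro h
    have hpi : Prime (p : ℤ) := Nat.prime_iff_prime_int.1 hp.out
    have : (p : ℤ) ∣ 13 * 17 := by norm_num; exact h
    rcases hpi.dvd_or_dvd this with h | h
    · exact d13 h
    · exact d17 h
  by_cases s13 : IsSquare ((13 : ℤ) : ZMod p)
  · obtain ⟨z, hz⟩ := padic_sq h2 d13 s13
    exact ⟨13, by simp, z, hz⟩
  by_cases s17 : IsSquare ((17 : ℤ) : ZMod p)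
  · obtain ⟨z, hz⟩ := padic_sq h2 d17 s17
    exact ⟨17, by simp, z, hz⟩
  have s221 : IsSquare ((221 : ℤ) : ZMod p) := by
    have h3 : (221 : ℤ) = 13 * 17 := by norm_num
    have hF : ringChar (ZMod p) ≠ 2 := by
      rw [ZMod.ringChar_zmod_n]; exact h2
    have g1 := quadraticChar_neg_one_iff_not_isSquare.2 s13
    have g2 := quadraticChar_neg_one_iff_not_isSquare.2 s17
    have g3 : quadraticChar (ZMod p) ((221 : ℤ) : ZMod p) = 1 := by
      rw [h3, Int.cast_mul, map_mul, g1, g2]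
      norm_num
    by_contra hns
    rw [quadraticChar_neg_one_iff_not_isSquare.2 hns] at g3
    norm_num at g3
  obtain ⟨z, hz⟩ := padic_sq h2 d221 s221
  exact ⟨221, by simp, z, hz⟩

lemma padic_isSquare (p : ℕ) [hp : Fact p.Prime] :
    IsSquare (13 : ℚ_[p]) ∨ IsSquare (17 : ℚ_[p]) ∨ IsSquare (221 : ℚ_[p]) := by
  obtain ⟨n, hn, z, hz⟩ := padic_ex p
  have h9 := congrArg (fun w : ℤ_[p] => (w : ℚ_[p])) hz
  simp only [PadicInt.coe_pow, PadicInt.coe_intCast] at h9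
  rcases hn with rfl | rfl | rfl
  · exact Or.inl ⟨z, by rw [← sq, h9]; norm_num⟩
  · exact Or.inr (Or.inl ⟨z, by rw [← sq, h9]; norm_num⟩)
  · exact Or.inr (Or.inr ⟨z, by rw [← sq, h9]; norm_num⟩)

end Pool.Agent.Y556.NX.Loc
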