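import Pool.Agent.Y556.NX.KBuild
import Pool.Agent.Y556.NX.Loc
import Pool.Agent.H528R2.Main

/-!
# `NEXP`-hardness of the solvability of quartic equations over number fields of odd degree
-/

set_option autoImplicit false

namespace Pool.Agent.Y556.NX

open NumberField Pool.Agent.NPC Pool.Agent.H528R2

section

variable {K : Type} [Field K] [NumberField K]

theorem sq_of_odd (hK : Odd (Module.finrank ℚ K)) (r : ℚ) (h : IsSquare (r : K)) : IsSquare r := by
  obtain ⟨x, hx⟩ := h
  by_cases hr : r = 0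
  · rw [hr]; exact ⟨0, by ring⟩
  obtain ⟨k, hk⟩ := hK
  have h1 : Algebra.norm ℚ (algebraMap ℚ K r) = r ^ Module.finrank ℚ K :=
    Algebra.norm_algebraMap r
  have h2 : algebraMap ℚ K r = x * x := by
    rw [← hx]; simp
  rw [h2, map_mul, hk] at h1
  refine ⟨Algebra.norm ℚ x / r ^ k, ?_⟩
  rw [div_mul_div_comm, h1, eq_div_iff (mul_ne_zero (pow_ne_zero _ hr) (pow_ne_zero _ hr))]
  ring

theorem anis_of_odd (hK : Odd (Module.finrank ℚ K)) : Anis K := by
  have h1 := InfinitePlace.card_add_two_mul_card_eq_rank K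
  have h2 : 0 < InfinitePlace.nrRealPlaces K := by
    rcases Nat.eq_zero_or_pos (InfinitePlace.nrRealPlaces K) with h | h
    · rw [h, zero_add] at h1
      rw [← h1] at hK
      exact absurd hK (by simp)
    · exact h
  obtain ⟨w, hw⟩ := Finite.card_pos_iff.1 (show 0 < Nat.card {w : InfinitePlace K // w.IsReal} by
    classical
    rw [Nat.card_eq_fintype_card]
    convert h2)
  exact Anis.of_ringHom (InfinitePlace.embedding_of_isReal hw)

theorem good_of_odd (hK : Odd (Module.finrank ℚ K))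
    (hE : ∀ z y : K, y ^ 2 = z ^ 3 - 2 * z ^ 2 + 65 * z → ∃ a b : ℚ, z = a ∧ y = b) : Good K where
  anis := anis_of_odd hK
  sq := sq_of_odd hK
  ov := fun _ hq => exists_OV K hK hq
  stab := fun z y h => by
    obtain ⟨a, b, h1, h2⟩ := hE z y h
    exact ⟨⟨a, h1⟩, ⟨b, h2⟩⟩

theorem not_sq_prime {p : ℕ} (hp : p.Prime) : ¬ IsSquare (p : ℚ) := Dio.not_isSquare_prime hp

theorem not_sq_221 : ¬ IsSquare (221 : ℚ) := by
  have h : ¬ IsSquare ((221 : ℕ) : ℚ) := by
    rw [Rat.isSquare_natCast_iff]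
    rintro ⟨r, hr⟩
    have h1 : r < 15 := by nlinarith
    interval_cases r <;> omega
  exact_mod_cast h

theorem gad_good (g : Good K) (S : List ER.Con) :
    ZeroIn K (gad S) ↔ ∃ v : ℕ → K, ∀ c ∈ S, HoldsF v c := by
  refine gad_iff g.anis (fun h => ?_) (fun h => ?_) (fun h => ?_) S
  · refine not_sq_prime (p := 13) (by norm_num) (g.sq _ ?_)
    exact_mod_cast h
  · refine not_sq_prime (p := 17) (by norm_num) (g.sq _ ?_)
    exact_mod_cast h
  · refine not_sq_221 (g.sq _ ?_)
    exact_mod_cast h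

end

/-- the quartic polynomial attached to an instance of DQBF -/
noncomputable def gadI (I : DInst) : List (ℤ × List ℕ) := gad (sysI I)

theorem poly_gadI : NPC.Poly gadI := poly_gad.comp poly_sysI

theorem real_isSquare : IsSquare (13 : ℝ) := ⟨Real.sqrt 13, by
  rw [Real.mul_self_sqrt (by norm_num)]⟩

theorem nexp_uniform {L : Set (List Bool)} (hL : InNEXP L) :
    ∃ f : List Bool → List (ℤ × List ℕ), PolyTime (fun w => bits (f w)) ∧
      (∀ w, (∀ t ∈ f w, t.2.length ≤ 4) ∧ ZeroIn ℝ (f w) ∧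
        ∀ (p : ℕ) [Fact p.Prime], ZeroIn ℚ_[p] (f w)) ∧
      ∀ (K : Type) [Field K] [NumberField K], Odd (Module.finrank ℚ K) →
        (∀ z y : K, y ^ 2 = z ^ 3 - 2 * z ^ 2 + 65 * z → ∃ a b : ℚ, z = a ∧ y = b) →
        ∀ w, w ∈ L ↔ ZeroIn K (f w) := by
  obtain ⟨f, hf, hfL⟩ := hardX_dq L hL
  have h : PC (fun x : List Bool => x) bits (fun w => gadI (f w)) :=
    PC.comp (eb := (bits : DInst → List Bool)) (g := gadI) poly_gadI hf
  refine ⟨fun w => gadI (f w), PC.toPolyTime h, fun w => ⟨gad_deg _, gad_local (Or.inl real_isSquare) _,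
    fun p _ => gad_local (Loc.padic_isSquare p) _⟩, fun K _ _ hK hE w => ?_⟩
  have g := good_of_odd hK hE
  change w ∈ L ↔ ZeroIn K (gad (sysI (f w)))
  rw [hfL w, gad_good g, g.sysI, rsat_iff]

end Pool.Agent.Y556.NX
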