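import Pool.Agent.Y556.NX.FRel

/-!
# Compilation of systems of macro constraints, uniformly in the field
-/

set_option autoImplicit false

namespace Pool.Agent.Y556.NX

open Pool.Agent.NPC Pool.Agent.H528R2

/-- a relation defined by a fixed system of elementary constraints, uniformly in the field -/
structure MacF where
  k : ℕ
  R : ∀ (F : Type) [Field F], (Fin k → F) → Prop
  dio : DioF k R

/-- the constraint `(kind, arguments)` holds at `V` -/
def MHF (Ms : List MacF) {F : Type} [Field F] (V : ℕ → F) (x : ℕ × List ℕ) : Prop :=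
  ∀ M ∈ Ms[x.1]?, M.R F (fun i => V (x.2.getD i 0))

noncomputable def MacF.sys (M : MacF) : List ER.Con := M.dio.choose

theorem MacF.sys_spec (M : MacF) (F : Type) [Field F] (hF : SqZ F) (x : Fin M.k → F) :
    M.R F x ↔ ∃ v : ℕ → F, (∀ i : Fin M.k, v i = x i) ∧ ∀ c ∈ M.sys, HoldsF v c :=
  M.dio.choose_spec F hF x

theorem holdsF_renCon {F : Type} [Field F] (v : ℕ → F) (ρ : ℕ → ℕ) (c : ER.Con) :
    HoldsF v (renCon ρ c) ↔ HoldsF (fun i => v (ρ i)) c := by
  cases c <;> rfl

/-- the compiled system, for a table of systems -/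
def compT (T : List (ℕ × List ER.Con)) (L : List (ℕ × List ℕ)) : List ER.Con :=
  L.zipIdx.flatMap fun p =>
    (T.getD p.1.1 (0, [])).2.map (renCon (rho (T.getD p.1.1 (0, [])).1 p.1.2 p.2))

theorem poly_compT (T : List (ℕ × List ER.Con)) : NPC.Poly (compT T) := by
  unfold compT
  refine NPC.Poly.flatMap (NPC.Poly.zipIdx NPC.Poly.id) ?_
  refine NPC.Poly.map (F := fun (a : List (ℕ × List ℕ) × ((ℕ × List ℕ) × ℕ)) c =>
    renCon (rho (T.getD a.2.1.1 (0, [])).1 a.2.1.2 a.2.2) c) ?_ ?_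
  · exact NPC.Poly.snd (NPC.Poly.getD (NPC.Poly.const T) (by fun_prop) (NPC.Poly.const (0, [])))
  · exact poly_renCon (NPC.Poly.fst (NPC.Poly.getD (NPC.Poly.const T) (by fun_prop)
      (NPC.Poly.const (0, [])))) (by fun_prop) (by fun_prop) (by fun_prop)

noncomputable def tabF (Ms : List MacF) : List (ℕ × List ER.Con) := Ms.map fun M => (M.k, M.sys)

theorem tabF_getD (Ms : List MacF) (i : ℕ) :
    (tabF Ms).getD i (0, []) = ((Ms[i]?).map fun M => (M.k, M.sys)).getD (0, []) := by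
  unfold tabF
  rw [List.getD_eq_getElem?_getD, List.getElem?_map]

theorem sat_compT (Ms : List MacF) {F : Type} [Field F] (hF : SqZ F) (L : List (ℕ × List ℕ)) :
    (∃ v : ℕ → F, ∀ c ∈ compT (tabF Ms) L, HoldsF v c) ↔
      ∃ V : ℕ → F, ∀ x ∈ L, MHF Ms V x := by
  classical
  constructor
  · rintro ⟨v, hv⟩
    refine ⟨fun n => v (2 * n), fun x hx M hM => ?_⟩
    obtain ⟨j, hj, rfl⟩ := List.getElem_of_mem hx
    have hM' : Ms[L[j].1]? = some M := hM
    refine (M.sys_spec F hF _).mpr ⟨fun i => v (rho M.k L[j].2 j i), fun i => ?_, fun c hc => ?_⟩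
    · simp [rho]
    · rw [← holdsF_renCon]
      apply hv
      refine List.mem_flatMap.mpr ⟨(L[j], j), ?_, ?_⟩
      · exact List.mk_mem_zipIdx_iff_getElem?.mpr (List.getElem?_eq_getElem hj)
      · simp only [tabF_getD, hM', Option.map_some, Option.getD_some]
        exact List.mem_map_of_mem hc
  · rintro ⟨V, hV⟩
    have hex : ∀ j : ℕ, ∃ u : ℕ → F, ∀ x, L[j]? = some x → ∀ M ∈ Ms[x.1]?,
        (∀ i : Fin M.k, u i = V (x.2.getD i 0)) ∧ ∀ c ∈ M.sys, HoldsF u c := by
      intro j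
      rcases hx : L[j]? with _ | x
      · exact ⟨fun _ => 0, by simp⟩
      · rcases hM : Ms[x.1]? with _ | M
        · refine ⟨fun _ => 0, ?_⟩
          intro x' hx' M hM'
          simp only [Option.some.injEq] at hx'
          subst hx'
          rw [hM] at hM'
          simp at hM'
        · obtain ⟨u, hu⟩ := (M.sys_spec F hF _).mp (hV x (List.mem_of_getElem? hx) M hM)
          refine ⟨u, ?_⟩
          intro x' hx' M' hM'
          simp only [Option.some.injEq] at hx'
          subst hx'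
          rw [hM] at hM'
          simp only [Option.mem_def, Option.some.injEq] at hM'
          subst hM'
          exact hu
    choose u hu using hex
    refine ⟨fun n => if n % 2 = 0 then V (n / 2) else
      u (Nat.unpair (n / 2)).1 (Nat.unpair (n / 2)).2, fun c hc => ?_⟩
    obtain ⟨⟨x, j⟩, hxj, hc⟩ := List.mem_flatMap.mp hc
    rw [List.mk_mem_zipIdx_iff_getElem?] at hxj
    simp only [tabF_getD] at hc
    rcases hM : Ms[x.1]? with _ | M
    · simp [hM] at hc
    · simp only [hM, Option.map_some, Option.getD_some, List.mem_map] at hc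
      obtain ⟨c', hc', rfl⟩ := hc
      obtain ⟨h1, h2⟩ := hu j x hxj M hM
      rw [holdsF_renCon]
      have h3 := h2 c' hc'
      convert h3 using 1
      ext i
      unfold rho
      split_ifs with h4 h5 h5
      · rw [Nat.mul_div_cancel_left _ (by norm_num)]
        exact (h1 ⟨i, h4⟩).symm
      · omega
      · omega
      · have : (2 * Nat.pair j i + 1) / 2 = Nat.pair j i := by omega
        rw [this, Nat.unpair_pair]

/-- the list of relations, in the order of `H528R2.macros` -/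
def macF : List MacF :=
  [⟨3, _, diof_base⟩, ⟨8, _, diof_arr 0⟩, ⟨8, _, diof_arr 1⟩, ⟨8, _, diof_arr 2⟩,
   ⟨2, _, diof_nt⟩, ⟨2, _, diof_nrm⟩, ⟨4, _, diof_hst⟩, ⟨3, _, diof_add⟩,
   ⟨3, _, diof_mul⟩, ⟨1, _, diof_one⟩]

section

variable {F : Type} [Field F] (V : ℕ → F) (l : List ℕ)

theorem mhf0 : MHF macF V (0, l) ↔ BaseF (V (l.getD 0 0)) (V (l.getD 1 0)) (V (l.getD 2 0)) := by
  simp [MHF, macF]
theorem mhf1 : MHF macF V (1, l) ↔ ArrF 0 (V (l.getD 0 0)) (V (l.getD 1 0)) (V (l.getD 2 0))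
    (V (l.getD 3 0)) (V (l.getD 4 0)) (V (l.getD 5 0)) (V (l.getD 6 0)) (V (l.getD 7 0)) := by
  simp [MHF, macF]
theorem mhf2 : MHF macF V (2, l) ↔ ArrF 1 (V (l.getD 0 0)) (V (l.getD 1 0)) (V (l.getD 2 0))
    (V (l.getD 3 0)) (V (l.getD 4 0)) (V (l.getD 5 0)) (V (l.getD 6 0)) (V (l.getD 7 0)) := by
  simp [MHF, macF]
theorem mhf3 : MHF macF V (3, l) ↔ ArrF 2 (V (l.getD 0 0)) (V (l.getD 1 0)) (V (l.getD 2 0))
    (V (l.getD 3 0)) (V (l.getD 4 0)) (V (l.getD 5 0)) (V (l.getD 6 0)) (V (l.getD 7 0)) := by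
  simp [MHF, macF]
theorem mhf4 : MHF macF V (4, l) ↔ NTF (V (l.getD 0 0)) (V (l.getD 1 0)) := by
  simp [MHF, macF]
theorem mhf5 : MHF macF V (5, l) ↔ NrmF (V (l.getD 0 0)) (V (l.getD 1 0)) := by
  simp [MHF, macF]
theorem mhf6 : MHF macF V (6, l) ↔
    HstF (V (l.getD 0 0)) (V (l.getD 1 0)) (V (l.getD 2 0)) (V (l.getD 3 0)) := by
  simp [MHF, macF]
theorem mhf7 : MHF macF V (7, l) ↔ V (l.getD 0 0) + V (l.getD 1 0) = V (l.getD 2 0) := by
  simp [MHF, macF]
theorem mhf8 : MHF macF V (8, l) ↔ V (l.getD 0 0) * V (l.getD 1 0) = V (l.getD 2 0) := by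
  simp [MHF, macF]
theorem mhf9 : MHF macF V (9, l) ↔ V (l.getD 0 0) = 1 := by
  simp [MHF, macF]
theorem mhf_ge (n : ℕ) (hn : 10 ≤ n) : MHF macF V (n, l) := by
  intro M hM
  have : macF[n]? = none := by
    rw [List.getElem?_eq_none_iff]
    simpa [macF] using hn
  simp [this] at hM

end

/-- over `ℚ` these are the constraints of `H528R2` -/
theorem mhf_rat (H : DioHyp) (V : ℕ → ℚ) (x : ℕ × List ℕ) :
    MHF macF V x ↔ MHolds (macros H) V x := by
  obtain ⟨n, l⟩ := x
  rcases n with _ | _ | _ | _ | _ | _ | _ | _ | _ | _ | n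
  · rw [mhf0, base_rat]; simp [MHolds, macros]
  · rw [mhf1, arr_rat]; simp [MHolds, macros]
  · rw [mhf2, arr_rat]; simp [MHolds, macros]
  · rw [mhf3, arr_rat]; simp [MHolds, macros]
  · rw [mhf4, nt_rat]; simp [MHolds, macros]
  · rw [mhf5, nrm_rat]; simp [MHolds, macros]
  · rw [mhf6, hst_rat]; simp [MHolds, macros]
  · rw [mhf7]; simp [MHolds, macros]
  · rw [mhf8]; simp [MHolds, macros]
  · rw [mhf9]; simp [MHolds, macros]
  · refine iff_of_true (mhf_ge V l _ (by omega)) ?_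
    intro M hM
    simp [macros] at hM

/-- the system attached to an instance of `DQBF`, the same for all fields -/
noncomputable def sysI (I : DInst) : List ER.Con := compT (tabF macF) (cons I)

theorem poly_sysI : NPC.Poly sysI := (poly_compT _).comp poly_cons

theorem sysI_rat (I : DInst) :
    (∃ v : ℕ → ℚ, ∀ c ∈ sysI I, HoldsF v c) ↔ RSat I := by
  unfold sysI
  rw [sat_compT _ sqZ_rat, ← cons_iff dioHyp I]
  simp only [mhf_rat dioHyp]

end Pool.Agent.Y556.NX
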