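import Pool.Agent.H528R2.DioCore

/-!
# Relations which are defined by one system of elementary constraints over all formally real fields
-/

set_option autoImplicit false

namespace Pool.Agent.Y556.NX

open Pool.Agent.NPC Pool.Agent.H528R2 Pool.Agent.H528R2.Dio

/-- The value of a polynomial expression at a point with coordinates in `F`. -/
def evalF {F : Type} [Field F] (x : ℕ → F) : ER.Tm → F
  | .var i => x i
  | .zero => 0
  | .one => 1
  | .add s t => evalF x s + evalF x t
  | .neg t => - evalF x t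
  | .mul s t => evalF x s * evalF x t

/-- Validity over `F` of the constraints `x i = 1`, `x i + x j = x k`, `x i * x j = x k`. -/
def HoldsF {F : Type} [Field F] (v : ℕ → F) : ER.Con → Prop
  | .one i => v i = 1
  | .add i j k => v i + v j = v k
  | .mul i j k => v i * v j = v k

theorem holdsF_rat (v : ℕ → ℚ) (c : ER.Con) : HoldsF v c ↔ HoldsQ v c := by
  cases c <;> rfl

/-- a sum of two squares vanishes only if both terms do -/
def SqZ (F : Type) [Field F] : Prop := ∀ a b : F, a * a + b * b = 0 → a = 0 ∧ b = 0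

theorem sqZ_rat : SqZ ℚ := by
  intro a b h
  have h1 := mul_self_nonneg a
  have h2 := mul_self_nonneg b
  exact ⟨mul_self_eq_zero.1 (by linarith), mul_self_eq_zero.1 (by linarith)⟩

abbrev Fn : Type 1 := ∀ (F : Type) [Field F], (ℕ → F) → F
abbrev Rl : Type 1 := ∀ (F : Type) [Field F], (ℕ → F) → Prop

theorem evalF_ren {F : Type} [Field F] (g : ℕ → ℕ) (v : ℕ → F) (t : ER.Tm) :
    evalF v (ren g t) = evalF (fun n => v (g n)) t := by
  induction t with
  | var i => rfl
  | zero => rfl
  | one => rfl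
  | add s t hs ht => simp only [ren, evalF, hs, ht]
  | neg t ht => simp only [ren, evalF, ht]
  | mul s t hs ht => simp only [ren, evalF, hs, ht]

/-- polynomial functions of the environment, the same for all fields -/
def PF' (f : Fn) : Prop := ∃ t : ER.Tm, ∀ (F : Type) [Field F] (v : ℕ → F), evalF v t = f F v

theorem PF'.var (i : ℕ) : PF' (fun _ _ v => v i) := ⟨.var i, fun _ _ _ => rfl⟩
theorem PF'.zero : PF' (fun _ _ _ => 0) := ⟨.zero, fun _ _ _ => rfl⟩
theorem PF'.one : PF' (fun _ _ _ => 1) := ⟨.one, fun _ _ _ => rfl⟩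

theorem PF'.add {f g : Fn} (hf : PF' f) (hg : PF' g) : PF' (fun F _ v => f F v + g F v) := by
  obtain ⟨s, hs⟩ := hf
  obtain ⟨t, ht⟩ := hg
  exact ⟨.add s t, fun F _ v => by simp only [evalF, hs, ht]⟩

theorem PF'.mul {f g : Fn} (hf : PF' f) (hg : PF' g) : PF' (fun F _ v => f F v * g F v) := by
  obtain ⟨s, hs⟩ := hf
  obtain ⟨t, ht⟩ := hg
  exact ⟨.mul s t, fun F _ v => by simp only [evalF, hs, ht]⟩

theorem PF'.neg {f : Fn} (hf : PF' f) : PF' (fun F _ v => - f F v) := by
  obtain ⟨s, hs⟩ := hf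
  exact ⟨.neg s, fun F _ v => by simp only [evalF, hs]⟩

theorem PF'.sub {f g : Fn} (hf : PF' f) (hg : PF' g) : PF' (fun F _ v => f F v - g F v) := by
  obtain ⟨s, hs⟩ := hf
  obtain ⟨t, ht⟩ := hg
  exact ⟨.add s (.neg t), fun F _ v => by simp only [evalF, hs, ht, sub_eq_add_neg]⟩

theorem PF'.nat (n : ℕ) : PF' (fun F _ _ => (n : F)) := by
  induction n with
  | zero =>
    obtain ⟨t, ht⟩ := PF'.zero
    exact ⟨t, fun F _ v => by rw [ht]; simp⟩
  | succ n ih =>
    obtain ⟨t, ht⟩ := ih.add PF'.one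
    exact ⟨t, fun F _ v => by rw [ht]; simp⟩

theorem PF'.lit (n : ℕ) [n.AtLeastTwo] : PF' (fun F _ _ => (OfNat.ofNat n : F)) := PF'.nat n

theorem PF'.pow {f : Fn} (hf : PF' f) (n : ℕ) : PF' (fun F _ v => f F v ^ n) := by
  induction n with
  | zero =>
    obtain ⟨t, ht⟩ := PF'.one
    exact ⟨t, fun F _ v => by rw [ht]; simp⟩
  | succ n ih =>
    obtain ⟨t, ht⟩ := ih.mul hf
    exact ⟨t, fun F _ v => by rw [ht]; exact (pow_succ _ _).symm⟩

theorem PF'.ren {f : Fn} (hf : PF' f) (g : ℕ → ℕ) : PF' (fun F _ v => f F (fun n => v (g n))) := by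
  obtain ⟨t, ht⟩ := hf
  exact ⟨Dio.ren g t, fun F _ v => by rw [evalF_ren, ht]⟩

theorem PF'.shift {f : Fn} (hf : PF' f) : PF' (fun F _ v => f F (fun n => v (n + 1))) :=
  hf.ren (fun n => n + 1)

/-- `v` at the even places, `u` at the odd places -/
def mixF {F : Type} (v u : ℕ → F) (n : ℕ) : F := if n % 2 = 0 then v (n / 2) else u (n / 2)

theorem mixF_even {F : Type} (v u : ℕ → F) (n : ℕ) : mixF v u (2 * n) = v n := by
  unfold mixF
  rw [if_pos (by omega)]
  congr 1
  omega

theorem mixF_odd {F : Type} (v u : ℕ → F) (n : ℕ) : mixF v u (2 * n + 1) = u n := by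
  unfold mixF
  rw [if_neg (by omega)]
  congr 1
  omega

/-- existentially defined relations, on environments, with one definition for all formally real
fields -/
def DF (R : Rl) : Prop := ∃ t : ER.Tm, ∀ (F : Type) [Field F], SqZ F → ∀ v : ℕ → F,
  R F v ↔ ∃ u, evalF (mixF v u) t = 0

theorem DF.congr {R R' : Rl} (h : DF R)
    (h' : ∀ (F : Type) [Field F], SqZ F → ∀ v : ℕ → F, R' F v ↔ R F v) : DF R' := by
  obtain ⟨t, ht⟩ := h
  exact ⟨t, fun F _ hF v => (h' F hF v).trans (ht F hF v)⟩

theorem DF.eq {f g : Fn} (hf : PF' f) (hg : PF' g) : DF (fun F _ v => f F v = g F v) := by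
  obtain ⟨t, ht⟩ := hf.sub hg
  refine ⟨ren (fun n => 2 * n) t, fun F _ _ v => ?_⟩
  have key : ∀ u, evalF (mixF v u) (ren (fun n => 2 * n) t) = f F v - g F v := by
    intro u
    rw [evalF_ren]
    simp only [mixF_even]
    exact ht F v
  constructor
  · intro h
    exact ⟨fun _ => 0, by rw [key, h, sub_self]⟩
  · rintro ⟨u, hu⟩
    rw [key] at hu
    exact sub_eq_zero.1 hu

theorem mixF_g1 {F : Type} (v u : ℕ → F) (n : ℕ) :
    mixF v u (g1 n) = mixF v (fun m => u (2 * m)) n := by
  obtain ⟨m, rfl | rfl⟩ : ∃ m, n = 2 * m ∨ n = 2 * m + 1 := ⟨n / 2, by omega⟩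
  · rw [g1, if_pos (by omega), mixF_even, mixF_even]
  · have h : (2 * m + 1) / 2 = m := by omega
    rw [g1, if_neg (by omega), h, mixF_odd, mixF_odd]

theorem mixF_g2 {F : Type} (v u : ℕ → F) (n : ℕ) :
    mixF v u (g2 n) = mixF v (fun m => u (2 * m + 1)) n := by
  obtain ⟨m, rfl | rfl⟩ : ∃ m, n = 2 * m ∨ n = 2 * m + 1 := ⟨n / 2, by omega⟩
  · rw [g2, if_pos (by omega), mixF_even, mixF_even]
  · have h : (2 * m + 1) / 2 = m := by omega
    rw [g2, if_neg (by omega), h, mixF_odd, mixF_odd]

theorem evalF_g1 {F : Type} [Field F] (v u : ℕ → F) (t : ER.Tm) :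
    evalF (mixF v u) (ren g1 t) = evalF (mixF v (fun m => u (2 * m))) t := by
  rw [evalF_ren]
  congr 1
  funext n
  exact mixF_g1 v u n

theorem evalF_g2 {F : Type} [Field F] (v u : ℕ → F) (t : ER.Tm) :
    evalF (mixF v u) (ren g2 t) = evalF (mixF v (fun m => u (2 * m + 1))) t := by
  rw [evalF_ren]
  congr 1
  funext n
  exact mixF_g2 v u n

theorem DF.and {R R' : Rl} (h : DF R) (h' : DF R') : DF (fun F _ v => R F v ∧ R' F v) := by
  obtain ⟨s, hs⟩ := h
  obtain ⟨t, ht⟩ := h'
  refine ⟨.add (.mul (ren g1 s) (ren g1 s)) (.mul (ren g2 t) (ren g2 t)), fun F _ hF v => ?_⟩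
  have key : ∀ u, evalF (mixF v u)
      (.add (.mul (ren g1 s) (ren g1 s)) (.mul (ren g2 t) (ren g2 t))) =
        evalF (mixF v (fun m => u (2 * m))) s * evalF (mixF v (fun m => u (2 * m))) s +
        evalF (mixF v (fun m => u (2 * m + 1))) t * evalF (mixF v (fun m => u (2 * m + 1))) t := by
    intro u
    simp only [evalF, evalF_g1, evalF_g2]
  change R F v ∧ R' F v ↔ _
  rw [hs F hF, ht F hF]
  constructor
  · rintro ⟨⟨a, ha⟩, ⟨b, hb⟩⟩
    refine ⟨mixF a b, ?_⟩
    rw [key]
    simp only [mixF_even, mixF_odd, ha, hb]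
    norm_num
  · rintro ⟨u, hu⟩
    rw [key] at hu
    obtain ⟨h1, h2⟩ := hF _ _ hu
    exact ⟨⟨_, h1⟩, ⟨_, h2⟩⟩

theorem DF.or {R R' : Rl} (h : DF R) (h' : DF R') : DF (fun F _ v => R F v ∨ R' F v) := by
  obtain ⟨s, hs⟩ := h
  obtain ⟨t, ht⟩ := h'
  refine ⟨.mul (ren g1 s) (ren g2 t), fun F _ hF v => ?_⟩
  have key : ∀ u, evalF (mixF v u) (.mul (ren g1 s) (ren g2 t)) =
        evalF (mixF v (fun m => u (2 * m))) s *
        evalF (mixF v (fun m => u (2 * m + 1))) t := by
    intro u
    simp only [evalF, evalF_g1, evalF_g2]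
  change R F v ∨ R' F v ↔ _
  rw [hs F hF, ht F hF]
  constructor
  · rintro (⟨a, ha⟩ | ⟨b, hb⟩)
    · refine ⟨mixF a a, ?_⟩
      rw [key]
      simp only [mixF_even, ha, zero_mul]
    · refine ⟨mixF b b, ?_⟩
      rw [key]
      simp only [mixF_odd, hb, mul_zero]
  · rintro ⟨u, hu⟩
    rw [key] at hu
    rcases mul_eq_zero.1 hu with h | h
    · exact Or.inl ⟨_, h⟩
    · exact Or.inr ⟨_, h⟩

theorem DF.ex {R : ∀ (F : Type) [Field F], (ℕ → F) → F → Prop}
    (h : DF (fun F _ v => R F (fun n => v (n + 1)) (v 0))) :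
    DF (fun F _ v => ∃ a, R F v a) := by
  obtain ⟨t, ht⟩ := h
  refine ⟨ren g3 t, fun F _ hF v => ?_⟩
  have key : ∀ u : ℕ → F, evalF (mixF v u) (ren g3 t) =
      evalF (mixF (fun n => if n = 0 then u 0 else v (n - 1)) (fun n => u (n + 1))) t := by
    intro u
    rw [evalF_ren]
    congr 1
    funext n
    obtain ⟨m, rfl | rfl⟩ : ∃ m, n = 2 * m ∨ n = 2 * m + 1 := ⟨n / 2, by omega⟩
    · rw [mixF_even]
      rcases m with _ | m
      · rw [g3, if_pos (by omega), if_pos rfl]
        exact mixF_odd v u 0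
      · rw [g3, if_neg (by omega), if_pos (by omega), if_neg (by omega)]
        have : 2 * (m + 1) - 2 = 2 * m := by omega
        rw [this, mixF_even]
        rfl
    · rw [g3, if_neg (by omega), if_neg (by omega), mixF_odd]
      have : 2 * m + 1 + 2 = 2 * (m + 1) + 1 := by omega
      rw [this, mixF_odd]
  constructor
  · rintro ⟨a, ha⟩
    have h1 := (ht F hF (fun n => if n = 0 then a else v (n - 1))).1 (by simpa using ha)
    obtain ⟨u, hu⟩ := h1
    refine ⟨fun n => if n = 0 then a else u (n - 1), ?_⟩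
    rw [key]
    simpa using hu
  · rintro ⟨u, hu⟩
    rw [key] at hu
    have h1 := (ht F hF (fun n => if n = 0 then u 0 else v (n - 1))).2 ⟨_, hu⟩
    exact ⟨u 0, by simpa using h1⟩

theorem DF.ne {f g : Fn} (hf : PF' f) (hg : PF' g) : DF (fun F _ v => f F v ≠ g F v) := by
  have h : DF (fun F _ v => ∃ a, (f F v - g F v) * a = 1) :=
    DF.ex (R := fun F _ v a => (f F v - g F v) * a = 1)
      (DF.eq ((hf.shift.sub hg.shift).mul (PF'.var 0)) PF'.one)
  refine h.congr fun F _ _ v => ?_
  constructor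
  · intro h
    exact ⟨(f F v - g F v)⁻¹, mul_inv_cancel₀ (sub_ne_zero.2 h)⟩
  · rintro ⟨a, ha⟩ h
    rw [h, sub_self, zero_mul] at ha
    exact zero_ne_one ha

theorem DF.isSquare {f : Fn} (hf : PF' f) : DF (fun F _ v => IsSquare (f F v)) :=
  DF.ex (R := fun F _ v a => f F v = a * a) (DF.eq hf.shift ((PF'.var 0).mul (PF'.var 0)))

theorem DF.true : DF (fun _ _ _ => True) :=
  (DF.eq PF'.zero PF'.zero).congr fun _ _ _ _ => by simp

/-! ### from environments to systems of elementary constraints -/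

theorem consF_sound {F : Type} [Field F] (k : ℕ) (v : ℕ → F) (h0 : v (ix k .zero) = 0) (t : ER.Tm)
    (h : ∀ c ∈ Dio.cons k t, HoldsF v c) :
    v (ix k t) = evalF (fun i => v (ix k (.var i))) t := by
  induction t with
  | var i => rfl
  | zero => exact h0
  | one => exact h _ (List.mem_singleton.2 rfl)
  | add s t hs ht =>
    have h1 := hs fun c hc => h c (List.mem_cons_of_mem _ (List.mem_append_left _ hc))
    have h2 := ht fun c hc => h c (List.mem_cons_of_mem _ (List.mem_append_right _ hc))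
    have h3 := h _ List.mem_cons_self
    simp only [HoldsF] at h3
    simp only [evalF]
    rw [← h1, ← h2, h3]
  | neg t ht =>
    have h2 := ht fun c hc => h c (List.mem_cons_of_mem _ hc)
    have h3 := h _ List.mem_cons_self
    simp only [HoldsF, h0] at h3
    simp only [evalF]
    rw [← h2]
    exact eq_neg_of_add_eq_zero_right h3
  | mul s t hs ht =>
    have h1 := hs fun c hc => h c (List.mem_cons_of_mem _ (List.mem_append_left _ hc))
    have h2 := ht fun c hc => h c (List.mem_cons_of_mem _ (List.mem_append_right _ hc))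
    have h3 := h _ List.mem_cons_self
    simp only [HoldsF] at h3
    simp only [evalF]
    rw [← h1, ← h2, h3]

theorem consF_complete {F : Type} [Field F] (k : ℕ) (v w : ℕ → F)
    (hv : ∀ s, v (ix k s) = evalF w s) (t : ER.Tm) : ∀ c ∈ Dio.cons k t, HoldsF v c := by
  induction t with
  | var i => intro c hc; simp [Dio.cons] at hc
  | zero =>
    intro c hc
    simp only [Dio.cons, List.mem_singleton] at hc
    subst hc
    simp [HoldsF, hv, evalF]
  | one =>
    intro c hc
    simp only [Dio.cons, List.mem_singleton] at hc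
    subst hc
    simp [HoldsF, hv, evalF]
  | add s t hs ht =>
    intro c hc
    simp only [Dio.cons, List.mem_cons, List.mem_append] at hc
    rcases hc with rfl | hc | hc
    · simp [HoldsF, hv, evalF]
    · exact hs c hc
    · exact ht c hc
  | neg t ht =>
    intro c hc
    simp only [Dio.cons, List.mem_cons] at hc
    rcases hc with rfl | hc
    · simp [HoldsF, hv, evalF]
    · exact ht c hc
  | mul s t hs ht =>
    intro c hc
    simp only [Dio.cons, List.mem_cons, List.mem_append] at hc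
    rcases hc with rfl | hc | hc
    · simp [HoldsF, hv, evalF]
    · exact hs c hc
    · exact ht c hc

/-- one system of elementary constraints which defines the relation over all formally real
fields -/
def DioF (k : ℕ) (P : ∀ (F : Type) [Field F], (Fin k → F) → Prop) : Prop :=
  ∃ S : List ER.Con, ∀ (F : Type) [Field F], SqZ F → ∀ x : Fin k → F,
    P F x ↔ ∃ v : ℕ → F, (∀ i : Fin k, v i = x i) ∧ ∀ c ∈ S, HoldsF v c

theorem DF.dioF {k : ℕ} {P : ∀ (F : Type) [Field F], (Fin k → F) → Prop}
    (h : DF (fun F _ v => P F (fun i => v i))) : DioF k P := by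
  obtain ⟨t, ht⟩ := h
  refine ⟨.add (ix k .zero) (ix k .zero) (ix k .zero) ::
    .add (ix k .zero) (ix k .zero) (ix k t) :: (Dio.cons k t ++
      (List.range k).map (fun i => .add (ix k .zero) i (ix k (.var (2 * i))))),
    fun F _ hF x => ?_⟩
  have hP : P F x ↔ ∃ w : ℕ → F, (∀ i : Fin k, w (2 * i) = x i) ∧ evalF w t = 0 := by
    constructor
    · intro hx
      have h1 := (ht F hF (fun n => if h : n < k then x ⟨n, h⟩ else 0)).1 (by simpa using hx)
      obtain ⟨u, hu⟩ := h1
      exact ⟨_, fun i => by rw [mixF_even]; simp, hu⟩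
    · rintro ⟨w, hw, hw0⟩
      have h1 := (ht F hF (fun n => w (2 * n))).2 ⟨fun n => w (2 * n + 1), by
        rw [← hw0]
        congr 1
        funext n
        obtain ⟨m, rfl | rfl⟩ : ∃ m, n = 2 * m ∨ n = 2 * m + 1 := ⟨n / 2, by omega⟩
        · rw [mixF_even]
        · rw [mixF_odd]⟩
      have h2 : (fun i : Fin k => w (2 * (i : ℕ))) = x := funext hw
      simpa only [h2] using h1
  rw [hP]
  constructor
  · rintro ⟨w, hw, hw0⟩
    obtain ⟨v', hx, hv⟩ : ∃ v' : ℕ → F, (∀ i : Fin k, v' i = x i) ∧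
        ∀ s, v' (ix k s) = evalF w s := by
      refine ⟨fun n => if h : n < k then x ⟨n, h⟩ else evalF w (Function.invFun code (n - k)),
        fun i => by simp, fun s => ?_⟩
      have h1 : ¬ ix k s < k := by unfold ix; omega
      have h2 : ix k s - k = code s := by unfold ix; omega
      change (if h : ix k s < k then x ⟨ix k s, h⟩ else
        evalF w (Function.invFun code (ix k s - k))) = evalF w s
      rw [dif_neg h1, h2, Function.leftInverse_invFun code_injective s]
    refine ⟨v', hx, ?_⟩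
    intro c hc
    simp only [List.mem_cons, List.mem_append, List.mem_map, List.mem_range] at hc
    rcases hc with rfl | rfl | hc | ⟨i, hi, rfl⟩
    · simp only [HoldsF, hv, evalF, add_zero]
    · simp only [HoldsF, hv, evalF, add_zero, hw0]
    · exact consF_complete k _ w hv t c hc
    · simp only [HoldsF, hv, evalF, zero_add]
      rw [hw ⟨i, hi⟩]
      exact hx ⟨i, hi⟩
  · rintro ⟨v, hv, hc⟩
    have h0 : v (ix k .zero) = 0 := by
      have := hc _ List.mem_cons_self
      simp only [HoldsF] at this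
      exact left_eq_add.1 this.symm
    have h1 := hc _ (List.mem_cons_of_mem _ List.mem_cons_self)
    have h2 := consF_sound k v h0 t fun c hc' =>
      hc c (List.mem_cons_of_mem _ (List.mem_cons_of_mem _ (List.mem_append_left _ hc')))
    refine ⟨fun i => v (ix k (.var i)), fun i => ?_, ?_⟩
    · have h3 := hc (.add (ix k .zero) i (ix k (.var (2 * i))))
        (List.mem_cons_of_mem _ (List.mem_cons_of_mem _ (List.mem_append_right _
          (List.mem_map.2 ⟨i, List.mem_range.2 i.2, rfl⟩))))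
      simp only [HoldsF, h0, zero_add] at h3
      simp only
      rw [← h3, hv]
    · simp only [HoldsF, h0, zero_add] at h1
      rw [← h2, ← h1]

end Pool.Agent.Y556.NX
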