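import Pool.Agent.Y556.NX.FCore
import Pool.Agent.H528R2.Build

/-!
# The basic relations, over an arbitrary field
-/

set_option autoImplicit false

namespace Pool.Agent.Y556.NX

open Pool.Agent.NPC Pool.Agent.H528R2 Pool.Agent.H528R2.Dio

section

variable {F : Type} [Field F]

def IsNF (x : F) : Prop := x ≠ 0 ∧ ∃ c e : F, x = c ^ 2 - 2 * e ^ 2

def TF (N G : F) : Prop := ∃ w : F, IsNF (N * (N + G ^ 2 - 2 * w ^ 2))

def TestF (N G : F) : Prop := ∃ ν e a : F, IsNF ν ∧ a * (N * ν) = 1 ∧ TF a 1 ∧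
    TF (N * ν) (32 * (e - 1)) ∧ TF (N * ν) (32 * e * G)

def NTF (N G : F) : Prop := N = 0 ∨ TestF N G

def NrmF (x y : F) : Prop := y * (x ^ 2 - 2) = x ^ 2

def InvF (w a : F) : Prop := w * a = 1 ∨ (w = 0 ∧ a = 0)

def HstF (N w w' y : F) : Prop := ∃ a b N' ζ : F, InvF w a ∧ InvF w' b ∧
    N' * (N ^ 2 - 2) = N ∧ ζ * ((a ^ 2 - 2) * (b ^ 2 - 2)) = 1 ∧
    y * (N' ^ 2 - 2 * ζ ^ 2) = N' ^ 2

def OnF (z y : F) : Prop := z ≠ 0 ∧ y ^ 2 = z ^ 3 - 2 * z ^ 2 + 65 * z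

def DblF (x y x' y' : F) : Prop :=
  ∃ l : F, l * (2 * y) = 3 * x ^ 2 - 4 * x + 65 ∧ x' = l ^ 2 + 2 - 2 * x ∧
    y' = - (l * (x' - x) + y)

def OctF (x y a b : F) : Prop :=
  ∃ x1 y1 x2 y2 : F, DblF x y x1 y1 ∧ DblF x1 y1 x2 y2 ∧ DblF x2 y2 a b

def ChdF (x1 y1 x2 y2 x y : F) : Prop :=
  ∃ l : F, l * (x1 - x2) = y1 - y2 ∧ x = l ^ 2 + 2 - x1 - x2 ∧ y = - (l * (x - x1) + y1)

def BaseF (z y w : F) : Prop := OnF z y ∧ IsSquare (5 * z) ∧ ∃ a b : F, OctF z y a b ∧ w * a = 1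

def ParF (p : ℕ) (x : F) : Prop := (p = 1 → IsSquare (5 * x)) ∧ (p = 2 → IsSquare x)

def ArrF (p : ℕ) (z y a0 a1 w0 w1 q0 q1 : F) : Prop :=
  OnF z y ∧ (IsSquare z ∨ IsSquare (5 * z)) ∧ ∃ v u : F, OnF v u ∧
    (IsSquare v ∨ IsSquare (5 * v)) ∧ v ≠ z ∧ ∃ x x' : F, ChdF v u z y x x' ∧ ParF p x ∧
      ∃ a b c d e f : F, OctF z y a b ∧ OctF v u c d ∧ OctF x x' e f ∧
        a0 * f = e ∧ w0 * e = 1 ∧ q0 * e = a ∧ a1 * d = c ∧ w1 * c = 1 ∧ q1 * c = a

end

/-! ### they have one definition over all formally real fields -/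

theorem df_isN {f : Fn} (hf : PF' f) : DF (fun F _ v => IsNF (f F v)) := by
  unfold IsNF
  refine (DF.ne hf PF'.zero).and (DF.ex (DF.ex ?_))
  exact DF.eq hf.shift.shift (((PF'.var _).pow 2).sub ((PF'.lit 2).mul ((PF'.var _).pow 2)))

theorem df_T {f g : Fn} (hf : PF' f) (hg : PF' g) : DF (fun F _ v => TF (f F v) (g F v)) := by
  unfold TF
  refine DF.ex ?_
  exact df_isN (hf.shift.mul ((hf.shift.add (hg.shift.pow 2)).sub
    ((PF'.lit 2).mul ((PF'.var _).pow 2))))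

theorem df_test {f g : Fn} (hf : PF' f) (hg : PF' g) :
    DF (fun F _ v => TestF (f F v) (g F v)) := by
  unfold TestF
  refine DF.ex (DF.ex (DF.ex ?_))
  refine (df_isN (PF'.var _)).and ?_
  refine (DF.eq ((PF'.var _).mul (hf.shift.shift.shift.mul (PF'.var _))) PF'.one).and ?_
  refine (df_T (PF'.var _) PF'.one).and ?_
  refine (df_T (hf.shift.shift.shift.mul (PF'.var _))
    ((PF'.lit 32).mul ((PF'.var _).sub PF'.one))).and ?_
  exact df_T (hf.shift.shift.shift.mul (PF'.var _))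
    (((PF'.lit 32).mul (PF'.var _)).mul hg.shift.shift.shift)

theorem df_NT {f g : Fn} (hf : PF' f) (hg : PF' g) : DF (fun F _ v => NTF (f F v) (g F v)) := by
  unfold NTF
  exact (DF.eq hf PF'.zero).or (df_test hf hg)

theorem df_nrm {f g : Fn} (hf : PF' f) (hg : PF' g) : DF (fun F _ v => NrmF (f F v) (g F v)) := by
  unfold NrmF
  exact DF.eq (hg.mul ((hf.pow 2).sub (PF'.lit 2))) (hf.pow 2)

theorem df_inv {f g : Fn} (hf : PF' f) (hg : PF' g) : DF (fun F _ v => InvF (f F v) (g F v)) := by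
  unfold InvF
  exact (DF.eq (hf.mul hg) PF'.one).or ((DF.eq hf PF'.zero).and (DF.eq hg PF'.zero))

theorem df_hst {f g h k : Fn} (hf : PF' f) (hg : PF' g) (hh : PF' h) (hk : PF' k) :
    DF (fun F _ v => HstF (f F v) (g F v) (h F v) (k F v)) := by
  unfold HstF
  refine DF.ex (DF.ex (DF.ex (DF.ex ?_)))
  refine (df_inv hg.shift.shift.shift.shift (PF'.var _)).and ?_
  refine (df_inv hh.shift.shift.shift.shift (PF'.var _)).and ?_
  refine (DF.eq ((PF'.var _).mul ((hf.shift.shift.shift.shift.pow 2).sub (PF'.lit 2)))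
    hf.shift.shift.shift.shift).and ?_
  refine (DF.eq ((PF'.var _).mul ((((PF'.var _).pow 2).sub (PF'.lit 2)).mul
    (((PF'.var _).pow 2).sub (PF'.lit 2)))) PF'.one).and ?_
  exact DF.eq (hk.shift.shift.shift.shift.mul (((PF'.var _).pow 2).sub
    ((PF'.lit 2).mul ((PF'.var _).pow 2)))) ((PF'.var _).pow 2)

theorem df_On {f g : Fn} (hf : PF' f) (hg : PF' g) : DF (fun F _ v => OnF (f F v) (g F v)) := by
  unfold OnF
  exact (DF.ne hf PF'.zero).and (DF.eq (hg.pow 2)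
    (((hf.pow 3).sub ((PF'.lit 2).mul (hf.pow 2))).add ((PF'.lit 65).mul hf)))

theorem df_Dbl {f g h k : Fn} (hf : PF' f) (hg : PF' g) (hh : PF' h) (hk : PF' k) :
    DF (fun F _ v => DblF (f F v) (g F v) (h F v) (k F v)) := by
  unfold DblF
  refine DF.ex ?_
  refine (DF.eq ((PF'.var _).mul ((PF'.lit 2).mul hg.shift))
    ((((PF'.lit 3).mul (hf.shift.pow 2)).sub ((PF'.lit 4).mul hf.shift)).add (PF'.lit 65))).and ?_
  refine (DF.eq hh.shift ((((PF'.var _).pow 2).add (PF'.lit 2)).sub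
    ((PF'.lit 2).mul hf.shift))).and ?_
  exact DF.eq hk.shift ((((PF'.var _).mul (hh.shift.sub hf.shift)).add hg.shift).neg)

theorem df_Oct {f g h k : Fn} (hf : PF' f) (hg : PF' g) (hh : PF' h) (hk : PF' k) :
    DF (fun F _ v => OctF (f F v) (g F v) (h F v) (k F v)) := by
  unfold OctF
  refine DF.ex (DF.ex (DF.ex (DF.ex ?_)))
  refine (df_Dbl hf.shift.shift.shift.shift hg.shift.shift.shift.shift
    (PF'.var _) (PF'.var _)).and ?_
  refine (df_Dbl (PF'.var _) (PF'.var _) (PF'.var _) (PF'.var _)).and ?_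
  exact df_Dbl (PF'.var _) (PF'.var _) hh.shift.shift.shift.shift hk.shift.shift.shift.shift

theorem df_Chd {f1 g1 f2 g2 f g : Fn} (hf1 : PF' f1) (hg1 : PF' g1) (hf2 : PF' f2)
    (hg2 : PF' g2) (hf : PF' f) (hg : PF' g) :
    DF (fun F _ v => ChdF (f1 F v) (g1 F v) (f2 F v) (g2 F v) (f F v) (g F v)) := by
  unfold ChdF
  refine DF.ex ?_
  refine (DF.eq ((PF'.var _).mul (hf1.shift.sub hf2.shift)) (hg1.shift.sub hg2.shift)).and ?_
  refine (DF.eq hf.shift (((((PF'.var _).pow 2).add (PF'.lit 2)).sub hf1.shift).sub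
    hf2.shift)).and ?_
  exact DF.eq hg.shift ((((PF'.var _).mul (hf.shift.sub hf1.shift)).add hg1.shift).neg)

theorem df_base {f g h : Fn} (hf : PF' f) (hg : PF' g) (hh : PF' h) :
    DF (fun F _ v => BaseF (f F v) (g F v) (h F v)) := by
  unfold BaseF
  refine (df_On hf hg).and ((DF.isSquare ((PF'.lit 5).mul hf)).and (DF.ex (DF.ex ?_)))
  refine (df_Oct hf.shift.shift hg.shift.shift (PF'.var _) (PF'.var _)).and ?_
  exact DF.eq (hh.shift.shift.mul (PF'.var _)) PF'.one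

theorem df_par (p : ℕ) {f : Fn} (hf : PF' f) : DF (fun F _ v => ParF p (f F v)) := by
  unfold ParF
  refine DF.and ?_ ?_
  · by_cases h : p = 1
    · exact (DF.isSquare ((PF'.lit 5).mul hf)).congr fun _ _ _ _ => by simp [h]
    · exact DF.true.congr fun _ _ _ _ => by simp [h]
  · by_cases h : p = 2
    · exact (DF.isSquare hf).congr fun _ _ _ _ => by simp [h]
    · exact DF.true.congr fun _ _ _ _ => by simp [h]

theorem df_arr (p : ℕ) {z y a0 a1 w0 w1 q0 q1 : Fn} (hz : PF' z) (hy : PF' y)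
    (ha0 : PF' a0) (ha1 : PF' a1) (hw0 : PF' w0) (hw1 : PF' w1) (hq0 : PF' q0) (hq1 : PF' q1) :
    DF (fun F _ v => ArrF p (z F v) (y F v) (a0 F v) (a1 F v) (w0 F v) (w1 F v) (q0 F v)
      (q1 F v)) := by
  unfold ArrF
  refine (df_On hz hy).and (((DF.isSquare hz).or (DF.isSquare ((PF'.lit 5).mul hz))).and ?_)
  refine DF.ex (DF.ex ?_)
  refine (df_On (PF'.var _) (PF'.var _)).and (((DF.isSquare (PF'.var _)).or
    (DF.isSquare ((PF'.lit 5).mul (PF'.var _)))).and ((DF.ne (PF'.var _) hz.shift.shift).and ?_))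
  replace hz := hz.shift.shift
  replace hy := hy.shift.shift
  replace ha0 := ha0.shift.shift
  replace ha1 := ha1.shift.shift
  replace hw0 := hw0.shift.shift
  replace hw1 := hw1.shift.shift
  replace hq0 := hq0.shift.shift
  replace hq1 := hq1.shift.shift
  refine DF.ex (DF.ex ?_)
  replace hz := hz.shift.shift
  replace hy := hy.shift.shift
  replace ha0 := ha0.shift.shift
  replace ha1 := ha1.shift.shift
  replace hw0 := hw0.shift.shift
  replace hw1 := hw1.shift.shift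
  replace hq0 := hq0.shift.shift
  replace hq1 := hq1.shift.shift
  refine (df_Chd (PF'.var _) (PF'.var _) hz hy (PF'.var _) (PF'.var _)).and
    ((df_par p (PF'.var _)).and ?_)
  refine DF.ex (DF.ex (DF.ex (DF.ex (DF.ex (DF.ex ?_)))))
  replace hz := hz.shift.shift.shift.shift.shift.shift
  replace hy := hy.shift.shift.shift.shift.shift.shift
  replace ha0 := ha0.shift.shift.shift.shift.shift.shift
  replace ha1 := ha1.shift.shift.shift.shift.shift.shift
  replace hw0 := hw0.shift.shift.shift.shift.shift.shift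
  replace hw1 := hw1.shift.shift.shift.shift.shift.shift
  replace hq0 := hq0.shift.shift.shift.shift.shift.shift
  replace hq1 := hq1.shift.shift.shift.shift.shift.shift
  refine (df_Oct hz hy (PF'.var _) (PF'.var _)).and ?_
  refine (df_Oct (PF'.var _) (PF'.var _) (PF'.var _) (PF'.var _)).and ?_
  refine (df_Oct (PF'.var _) (PF'.var _) (PF'.var _) (PF'.var _)).and ?_
  refine (DF.eq (ha0.mul (PF'.var _)) (PF'.var _)).and ?_
  refine (DF.eq (hw0.mul (PF'.var _)) PF'.one).and ?_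
  refine (DF.eq (hq0.mul (PF'.var _)) (PF'.var _)).and ?_
  refine (DF.eq (ha1.mul (PF'.var _)) (PF'.var _)).and ?_
  refine (DF.eq (hw1.mul (PF'.var _)) PF'.one).and ?_
  exact DF.eq (hq1.mul (PF'.var _)) (PF'.var _)

/-! ### the macros -/

theorem diof_base : DioF 3 (fun F _ x => BaseF (x 0) (x 1) (x 2)) :=
  DF.dioF (df_base (PF'.var _) (PF'.var _) (PF'.var _))

theorem diof_arr (p : ℕ) :
    DioF 8 (fun F _ x => ArrF p (x 0) (x 1) (x 2) (x 3) (x 4) (x 5) (x 6) (x 7)) :=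
  DF.dioF (df_arr p (PF'.var _) (PF'.var _) (PF'.var _) (PF'.var _) (PF'.var _) (PF'.var _)
    (PF'.var _) (PF'.var _))

theorem diof_nt : DioF 2 (fun F _ x => NTF (x 0) (x 1)) :=
  DF.dioF (df_NT (PF'.var _) (PF'.var _))

theorem diof_nrm : DioF 2 (fun F _ x => NrmF (x 0) (x 1)) :=
  DF.dioF (df_nrm (PF'.var _) (PF'.var _))

theorem diof_hst : DioF 4 (fun F _ x => HstF (x 0) (x 1) (x 2) (x 3)) :=
  DF.dioF (df_hst (PF'.var _) (PF'.var _) (PF'.var _) (PF'.var _))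

theorem diof_add : DioF 3 (fun F _ x => x 0 + x 1 = x 2) :=
  DF.dioF (DF.eq ((PF'.var 0).add (PF'.var 1)) (PF'.var 2))

theorem diof_mul : DioF 3 (fun F _ x => x 0 * x 1 = x 2) :=
  DF.dioF (DF.eq ((PF'.var 0).mul (PF'.var 1)) (PF'.var 2))

theorem diof_one : DioF 1 (fun F _ x => x 0 = 1) :=
  DF.dioF (DF.eq (PF'.var 0) PF'.one)

/-! ### over the rational numbers they are the relations of `H528R2` -/

theorem base_rat (z y w : ℚ) : BaseF z y w ↔ BaseRel z y w := (baseRel_iff z y w).symm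

theorem arr_rat (p : ℕ) (z y a0 a1 w0 w1 q0 q1 : ℚ) :
    ArrF p z y a0 a1 w0 w1 q0 q1 ↔ ArrRel p z y ⟨a0, a1, w0, w1, q0, q1⟩ :=
  (arrRel_iff p z y a0 a1 w0 w1 q0 q1).symm

theorem nt_rat (N G : ℚ) : NTF N G ↔ NT N G :=
  or_congr Iff.rfl (test_iff_ex N G).symm

theorem nrm_rat (x y : ℚ) : NrmF x y ↔ y = nrm x := (eq_nrm_iff x y).symm

theorem inv_rat (w a : ℚ) : InvF w a ↔ a = 1 / w := (eq_one_div_iff w a).symm

theorem hst_rat (N w w' y : ℚ) : HstF N w w' y ↔ y = hst N w w' := by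
  rw [eq_hst_iff]
  unfold HstF
  simp only [inv_rat]

end Pool.Agent.Y556.NX
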