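import Pool.Agent.Y556.NX.FCore
import Pool.Agent.W463.H10.Terms
import Pool.Agent.H671R2.PolyAuto

/-!
# One quartic equation which is solvable over all completions and encodes a system of constraints
-/

set_option autoImplicit false

namespace Pool.Agent.Y556.NX

open Pool.Agent.NPC Pool.Agent.H528R2 Pool.Agent.W463.H10

/-- The value at `x` of the polynomial with the list of terms `p`: the pair `(c, [i₁, …, i_k])`
stands for the term `c * x i₁ * ⋯ * x i_k`. -/
def valueF {F : Type} [Field F] (x : ℕ → F) (p : List (ℤ × List ℕ)) : F :=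
  (p.map fun t => (t.1 : F) * (t.2.map x).prod).sum

/-- the polynomial with the list of terms `p` has a zero with coordinates in `F` -/
def ZeroIn (F : Type) [Field F] (p : List (ℤ × List ℕ)) : Prop := ∃ x : ℕ → F, valueF x p = 0

section

variable {F : Type} [Field F]

theorem valueF_nil (x : ℕ → F) : valueF x [] = 0 := rfl

theorem valueF_cons (x : ℕ → F) (t : ℤ × List ℕ) (p : List (ℤ × List ℕ)) :
    valueF x (t :: p) = (t.1 : F) * (t.2.map x).prod + valueF x p := by
  simp [valueF]

theorem valueF_append (x : ℕ → F) (p q : List (ℤ × List ℕ)) :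
    valueF x (p ++ q) = valueF x p + valueF x q := by
  simp [valueF]

theorem valueF_mul_aux (x : ℕ → F) (s : ℤ × List ℕ) (q : List (ℤ × List ℕ)) :
    valueF x (q.map fun t => (s.1 * t.1, s.2 ++ t.2)) =
      (s.1 : F) * (s.2.map x).prod * valueF x q := by
  induction q with
  | nil => simp [valueF]
  | cons t q ih =>
    rw [List.map_cons, valueF_cons, ih, valueF_cons]
    simp only [List.map_append, List.prod_append]
    push_cast
    ring

theorem valueF_mulT (x : ℕ → F) (p q : List (ℤ × List ℕ)) :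
    valueF x (mulT p q) = valueF x p * valueF x q := by
  induction p with
  | nil => simp [valueF, mulT]
  | cons s p ih =>
    have : mulT (s :: p) q = (q.map fun t => (s.1 * t.1, s.2 ++ t.2)) ++ mulT p q := rfl
    rw [this, valueF_append, ih, valueF_mul_aux, valueF_cons]
    ring

theorem valueF_sqs_of (x : ℕ → F) (l : List (List (ℤ × List ℕ))) (h : ∀ p ∈ l, valueF x p = 0) :
    valueF x (sqs l) = 0 := by
  induction l with
  | nil => simp [sqs, valueF]
  | cons p l ih =>
    have e : sqs (p :: l) = mulT p p ++ sqs l := rfl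
    rw [e, valueF_append, valueF_mulT, h p List.mem_cons_self,
      ih fun q hq => h q (List.mem_cons_of_mem _ hq)]
    ring

end

/-- a field whose sums of squares vanish only trivially -/
def Anis (F : Type) [Field F] : Prop :=
  ∀ l : List F, (l.map fun a => a * a).sum = 0 → ∀ a ∈ l, a = 0

theorem valueF_sqs_eq {F : Type} [Field F] (x : ℕ → F) (l : List (List (ℤ × List ℕ))) :
    valueF x (sqs l) = ((l.map (valueF x)).map fun a => a * a).sum := by
  induction l with
  | nil => simp [sqs, valueF]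
  | cons p l ih =>
    have e : sqs (p :: l) = mulT p p ++ sqs l := rfl
    rw [e, valueF_append, valueF_mulT, ih]
    simp

theorem Anis.sqs {F : Type} [Field F] (hF : Anis F) (x : ℕ → F) (l : List (List (ℤ × List ℕ))) :
    valueF x (sqs l) = 0 ↔ ∀ p ∈ l, valueF x p = 0 := by
  refine ⟨fun h p hp => ?_, valueF_sqs_of x l⟩
  rw [valueF_sqs_eq] at h
  exact hF _ h _ (List.mem_map_of_mem hp)

theorem Anis.sqZ {F : Type} [Field F] (hF : Anis F) : SqZ F := by
  intro a b h
  have := hF [a, b] (by simpa using h)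
  exact ⟨this a (by simp), this b (by simp)⟩

theorem Anis.of_ringHom {F E : Type} [Field F] [Field E] [LinearOrder E] [IsStrictOrderedRing E]
    (φ : F →+* E) : Anis F := by
  intro l
  have key : ∀ l : List F, 0 ≤ φ ((l.map fun a => a * a).sum) ∧
      (φ ((l.map fun a => a * a).sum) = 0 → ∀ a ∈ l, a = 0) := by
    intro l
    induction l with
    | nil => simp
    | cons a l ih =>
      rw [List.map_cons, List.sum_cons, map_add, map_mul]
      have h1 := mul_self_nonneg (φ a)
      refine ⟨add_nonneg h1 ih.1, fun h b hb => ?_⟩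
      have h2 : φ a * φ a = 0 := by linarith [ih.1]
      have h3 : φ ((l.map fun a => a * a).sum) = 0 := by linarith [ih.1]
      rcases List.mem_cons.1 hb with rfl | hb
      · exact (map_eq_zero φ).1 (mul_self_eq_zero.1 h2)
      · exact ih.2 h3 b hb
  intro h
  exact (key l).2 (by rw [h, map_zero])

/-! ### the polynomials -/

/-- `w - c(x)`, for a constraint with the code `c`; the variable `x i` has the index `2 i + 6`,
and the variable `w` the index `n` -/
def conT (c : ℕ × ℕ × ℕ × ℕ) (n : ℕ) : List (ℤ × List ℕ) :=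
  if c.1 = 0 then [(1, [n]), (-1, [2 * c.2.1 + 6]), (1, [])]
  else if c.1 = 1 then [(1, [n]), (-1, [2 * c.2.1 + 6]), (-1, [2 * c.2.2.1 + 6]),
    (1, [2 * c.2.2.2 + 6])]
  else [(1, [n]), (-1, [2 * c.2.1 + 6, 2 * c.2.2.1 + 6]), (1, [2 * c.2.2.2 + 6])]

/-- the equations which are always present; `u, t, y, s, r, r'` have the indices `0, …, 5` -/
def headL : List (List (ℤ × List ℕ)) :=
  [[(1, [0]), (1, [1]), (-1, [])],
   [(1, [3]), (-1, [2, 2])],
   [(1, [4]), (-1, [1, 3]), (13, [1])],
   [(1, [5]), (-1, [4, 3]), (17, [4])],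
   [(1, [5, 3]), (-221, [5])]]

/-- the two equations attached to the constraint with number `p.2` -/
def pairT (p : ER.Con × ℕ) : List (List (ℤ × List ℕ)) :=
  [conT p.1.code (2 * p.2 + 7), [(1, [0, 2 * p.2 + 7])]]

def gadL (S : List ER.Con) : List (List (ℤ × List ℕ)) := headL ++ S.zipIdx.flatMap pairT

/-- the quartic polynomial -/
def gad (S : List ER.Con) : List (ℤ × List ℕ) := sqs (gadL S)

/-- the value of a constraint -/
def defect {F : Type} [Field F] (v : ℕ → F) : ER.Con → F
  | .one i => v i - 1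
  | .add i j k => v i + v j - v k
  | .mul i j k => v i * v j - v k

theorem defect_eq_zero {F : Type} [Field F] (v : ℕ → F) (c : ER.Con) :
    defect v c = 0 ↔ HoldsF v c := by
  cases c <;> simp [defect, HoldsF, sub_eq_zero]

theorem valueF_conT {F : Type} [Field F] (x : ℕ → F) (c : ER.Con) (n : ℕ) :
    valueF x (conT c.code n) = x n - defect (fun i => x (2 * i + 6)) c := by
  cases c <;> simp [conT, ER.Con.code, valueF, defect] <;> ring

theorem gad_forall {F : Type} [Field F] (x : ℕ → F) (S : List ER.Con) :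
    (∀ p ∈ gadL S, valueF x p = 0) ↔ (x 0 + x 1 = 1 ∧ x 3 = x 2 * x 2 ∧
      x 4 = x 1 * (x 3 - 13) ∧ x 5 = x 4 * (x 3 - 17) ∧ x 5 * (x 3 - 221) = 0) ∧
      ∀ j (h : j < S.length), x (2 * j + 7) = defect (fun i => x (2 * i + 6)) S[j] ∧
        x 0 * x (2 * j + 7) = 0 := by
  unfold gadL
  rw [List.forall_mem_append]
  refine and_congr ?_ ?_
  · simp only [headL, List.forall_mem_cons, List.not_mem_nil, false_imp_iff, implies_true, and_true]
    refine and_congr ?_ (and_congr ?_ (and_congr ?_ (and_congr ?_ ?_))) <;>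
      simp only [valueF, List.map_cons, List.map_nil, List.sum_cons, List.sum_nil, List.prod_cons,
        List.prod_nil] <;> push_cast
    · constructor <;> intro h <;> linear_combination h
    · constructor <;> intro h <;> linear_combination h
    · constructor <;> intro h <;> linear_combination h
    · constructor <;> intro h <;> linear_combination h
    · constructor <;> intro h <;> linear_combination h
  · constructor
    · intro h j hj
      have h1 : ∀ p ∈ pairT (S[j], j), valueF x p = 0 := fun p hp =>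
        h p (List.mem_flatMap.2 ⟨(S[j], j),
          List.mk_mem_zipIdx_iff_getElem?.2 (List.getElem?_eq_getElem hj), hp⟩)
      have h2 := h1 (conT S[j].code (2 * j + 7)) (by simp [pairT])
      have h3 := h1 [(1, [0, 2 * j + 7])] (by simp [pairT])
      rw [valueF_conT] at h2
      refine ⟨sub_eq_zero.1 h2, ?_⟩
      simpa [valueF] using h3
    · intro h p hp
      obtain ⟨⟨c, j⟩, hcj, hp⟩ := List.mem_flatMap.1 hp
      rw [List.mk_mem_zipIdx_iff_getElem?] at hcj
      obtain ⟨hj, hc⟩ := List.getElem?_eq_some_iff.1 hcj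
      obtain ⟨h1, h2⟩ := h j hj
      simp only [pairT, List.mem_cons, List.not_mem_nil, or_false] at hp
      rcases hp with rfl | rfl
      · rw [valueF_conT, ← hc, ← h1, sub_self]
      · simpa [valueF] using h2

/-- the polynomial always has a zero in a field which contains one of the square roots of `13`,
`17` and `221` -/
theorem gad_local {F : Type} [Field F] (h : IsSquare (13 : F) ∨ IsSquare (17 : F) ∨
    IsSquare (221 : F)) (S : List ER.Con) : ZeroIn F (gad S) := by
  obtain ⟨y, hy⟩ : ∃ y : F, (y * y - 13) * (y * y - 17) * (y * y - 221) = 0 := by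
    rcases h with ⟨y, hy⟩ | ⟨y, hy⟩ | ⟨y, hy⟩ <;> exact ⟨y, by rw [← hy]; ring⟩
  set D : ℕ → F := fun j => defect (fun _ => (0 : F)) (S.getD j default) with hD
  refine ⟨fun n => if n = 0 then 0 else if n = 1 then 1 else if n = 2 then y else
    if n = 3 then y * y else if n = 4 then y * y - 13 else
    if n = 5 then (y * y - 13) * (y * y - 17) else
    if n % 2 = 0 then 0 else D ((n - 7) / 2), ?_⟩
  refine valueF_sqs_of _ _ ?_
  rw [gad_forall]
  refine ⟨⟨by simp, by simp, by simp, by simp, ?_⟩, fun j hj => ⟨?_, by simp⟩⟩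
  · simpa using hy
  · have e1 : (fun i : ℕ => (fun n : ℕ => if n = 0 then (0 : F) else if n = 1 then 1 else
        if n = 2 then y else
        if n = 3 then y * y else if n = 4 then y * y - 13 else
        if n = 5 then (y * y - 13) * (y * y - 17) else
        if n % 2 = 0 then 0 else D ((n - 7) / 2)) (2 * i + 6)) = fun _ => (0 : F) := by
      funext i
      have a0 : ¬ 2 * i + 6 = 0 := by omega
      have a1 : ¬ 2 * i + 6 = 1 := by omega
      have a2 : ¬ 2 * i + 6 = 2 := by omega
      have a3 : ¬ 2 * i + 6 = 3 := by omega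
      have a4 : ¬ 2 * i + 6 = 4 := by omega
      have a5 : ¬ 2 * i + 6 = 5 := by omega
      have a6 : (2 * i + 6) % 2 = 0 := by omega
      simp only [if_neg a0, if_neg a1, if_neg a2, if_neg a3, if_neg a4, if_neg a5, if_pos a6]
    rw [e1]
    have a0 : ¬ 2 * j + 7 = 0 := by omega
    have a1 : ¬ 2 * j + 7 = 1 := by omega
    have a2 : ¬ 2 * j + 7 = 2 := by omega
    have a3 : ¬ 2 * j + 7 = 3 := by omega
    have a4 : ¬ 2 * j + 7 = 4 := by omega
    have a5 : ¬ 2 * j + 7 = 5 := by omega
    have a6 : ¬ (2 * j + 7) % 2 = 0 := by omega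
    have a7 : (2 * j + 7 - 7) / 2 = j := by omega
    simp only [if_neg a0, if_neg a1, if_neg a2, if_neg a3, if_neg a4, if_neg a5, if_neg a6, a7, hD]
    rw [List.getD_eq_getElem _ _ hj]

/-- over the other formally real fields a zero of the polynomial is the same as a solution of the
system -/
theorem gad_iff {F : Type} [Field F] (hF : Anis F) (h13 : ¬ IsSquare (13 : F))
    (h17 : ¬ IsSquare (17 : F)) (h221 : ¬ IsSquare (221 : F)) (S : List ER.Con) :
    ZeroIn F (gad S) ↔ ∃ v : ℕ → F, ∀ c ∈ S, HoldsF v c := by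
  constructor
  · rintro ⟨x, hx⟩
    rw [gad, hF.sqs, gad_forall] at hx
    obtain ⟨⟨h1, h2, h3, h4, h5⟩, h6⟩ := hx
    have ht : x 1 = 0 := by
      by_contra ht
      have h7 : x 3 - 13 ≠ 0 := fun h => h13 ⟨x 2, by rw [← h2]; exact (sub_eq_zero.1 h).symm⟩
      have h8 : x 3 - 17 ≠ 0 := fun h => h17 ⟨x 2, by rw [← h2]; exact (sub_eq_zero.1 h).symm⟩
      have h9 : x 3 - 221 ≠ 0 := fun h => h221 ⟨x 2, by rw [← h2]; exact (sub_eq_zero.1 h).symm⟩
      rw [h4, h3] at h5
      exact mul_ne_zero (mul_ne_zero (mul_ne_zero ht h7) h8) h9 h5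
    have hu : x 0 = 1 := by rw [ht, add_zero] at h1; exact h1
    refine ⟨fun i => x (2 * i + 6), fun c hc => ?_⟩
    obtain ⟨j, hj, rfl⟩ := List.getElem_of_mem hc
    obtain ⟨h7, h8⟩ := h6 j hj
    rw [hu, one_mul] at h8
    rw [← defect_eq_zero, ← h7, h8]
  · rintro ⟨v, hv⟩
    refine ⟨fun n => if n = 0 then 1 else if n < 6 then 0 else
      if n % 2 = 0 then v ((n - 6) / 2) else 0, ?_⟩
    refine valueF_sqs_of _ _ ?_
    rw [gad_forall]
    refine ⟨⟨by simp, by simp, by simp, by simp, by simp⟩, fun j hj => ?_⟩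
    have e1 : (fun i : ℕ => (fun n : ℕ => if n = 0 then (1 : F) else if n < 6 then 0 else
      if n % 2 = 0 then v ((n - 6) / 2) else 0) (2 * i + 6)) = v := by
      funext i
      have a0 : ¬ 2 * i + 6 = 0 := by omega
      have a1 : ¬ 2 * i + 6 < 6 := by omega
      have a6 : (2 * i + 6) % 2 = 0 := by omega
      have a7 : (2 * i + 6 - 6) / 2 = i := by omega
      simp only [if_neg a0, if_neg a1, if_pos a6, a7]
    have a0 : ¬ 2 * j + 7 = 0 := by omega
    have a1 : ¬ 2 * j + 7 < 6 := by omega
    have a6 : ¬ (2 * j + 7) % 2 = 0 := by omega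
    rw [e1]
    simp only [if_neg a0, if_neg a1, if_neg a6, mul_zero, and_true]
    exact ((defect_eq_zero _ _).2 (hv _ (List.getElem_mem hj))).symm

theorem gad_deg (S : List ER.Con) : ∀ t ∈ gad S, t.2.length ≤ 4 := by
  have key : ∀ p ∈ gadL S, ∀ t ∈ p, t.2.length ≤ 2 := by
    intro p hp
    rcases List.mem_append.1 hp with hp | hp
    · simp only [headL, List.mem_cons, List.not_mem_nil, or_false] at hp
      rcases hp with rfl | rfl | rfl | rfl | rfl <;> simp
    · obtain ⟨⟨c, j⟩, -, hp⟩ := List.mem_flatMap.1 hp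
      simp only [pairT, List.mem_cons, List.not_mem_nil, or_false] at hp
      rcases hp with rfl | rfl
      · cases c <;> simp [conT, ER.Con.code]
      · simp
  intro t ht
  unfold gad sqs mulT at ht
  obtain ⟨p, hp, ht⟩ := List.mem_flatMap.1 ht
  obtain ⟨a, ha, ht⟩ := List.mem_flatMap.1 ht
  obtain ⟨b, hb, rfl⟩ := List.mem_map.1 ht
  have h1 := key p hp a ha
  have h2 := key p hp b hb
  simp only [List.length_append]
  omega

/-! ### polynomial time -/

section

variable {α : Type} [TEnc α]

theorem poly_conT {c : α → ℕ × ℕ × ℕ × ℕ} {n : α → ℕ} (hc : NPC.Poly c) (hn : NPC.Poly n) :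
    NPC.Poly (fun a => conT (c a) (n a)) := by
  have p1 : NPC.Poly (fun a => 2 * (c a).2.1 + 6) := by fun_prop
  have p2 : NPC.Poly (fun a => 2 * (c a).2.2.1 + 6) := by fun_prop
  have p3 : NPC.Poly (fun a => 2 * (c a).2.2.2 + 6) := by fun_prop
  have e : ∀ z : ℤ, NPC.Poly (fun _ : α => z) := fun z => NPC.Poly.const z
  have s1 : ∀ {g : α → ℕ}, NPC.Poly g → NPC.Poly (fun a => [g a]) := fun hg =>
    NPC.Poly.cons hg (NPC.Poly.const [])
  have nl : NPC.Poly (fun _ : α => ([] : List (ℤ × List ℕ))) := NPC.Poly.const []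
  unfold conT
  refine NPC.Poly.ite (NPC.Poly.dec_eq (by fun_prop) (NPC.Poly.const 0)) ?_
    (NPC.Poly.ite (NPC.Poly.dec_eq (by fun_prop) (NPC.Poly.const 1)) ?_ ?_)
  · exact .cons (.pair (e _) (s1 hn)) (.cons (.pair (e _) (s1 p1)) (.cons (NPC.Poly.const _) nl))
  · exact .cons (.pair (e _) (s1 hn)) (.cons (.pair (e _) (s1 p1)) (.cons (.pair (e _) (s1 p2))
      (.cons (.pair (e _) (s1 p3)) nl)))
  · exact .cons (.pair (e _) (s1 hn)) (.cons (.pair (e _) (NPC.Poly.cons p1 (s1 p2)))
      (.cons (.pair (e _) (s1 p3)) nl))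

theorem poly_pairT {f : α → ER.Con} {n : α → ℕ} (hf : NPC.Poly f) (hn : NPC.Poly n) :
    NPC.Poly (fun a => pairT (f a, n a)) := by
  have p1 : NPC.Poly (fun a => 2 * n a + 7) := by fun_prop
  have h1 : NPC.Poly (fun a => conT (f a).code (2 * n a + 7)) := poly_conT (ER.poly_con_code hf) p1
  have h2 : NPC.Poly (fun a => ([(1, [0, 2 * n a + 7])] : List (ℤ × List ℕ))) :=
    .cons (.pair (NPC.Poly.const 1) (.cons (NPC.Poly.const 0) (.cons p1 (NPC.Poly.const []))))
      (NPC.Poly.const [])
  exact .cons h1 (.cons h2 (NPC.Poly.const []))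

theorem poly_gad : NPC.Poly gad := by
  unfold gad gadL
  refine poly_sqs (NPC.Poly.append (NPC.Poly.const _) ?_)
  refine NPC.Poly.flatMap (NPC.Poly.zipIdx NPC.Poly.id) ?_
  exact poly_pairT (NPC.Poly.fst (NPC.Poly.snd NPC.Poly.id)) (NPC.Poly.snd (NPC.Poly.snd NPC.Poly.id))

end

end Pool.Agent.Y556.NX
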