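import Pool.Agent.Y556.NX.KDesc

/-!
# All values of a solution over a good field are rational
-/

set_option autoImplicit false

namespace Pool.Agent.Y556.NX

open Pool.Agent.NPC Pool.Agent.H528R2

section

variable {K : Type} [Field K] [CharZero K]

def RatAt (V : ℕ → K) (n : ℕ) : Prop := ∃ r : ℚ, V n = r

open Classical in
/-- the rational values of `V` -/
noncomputable def dn (V : ℕ → K) (n : ℕ) : ℚ := if h : ∃ r : ℚ, V n = r then h.choose else 0

theorem dn_spec {V : ℕ → K} {n : ℕ} (h : RatAt V n) : V n = (dn V n : K) := by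
  have h' : ∃ r : ℚ, V n = r := h
  unfold dn
  rw [dif_pos h']
  exact h'.choose_spec

theorem dn_eq {V : ℕ → K} {n : ℕ} {r : ℚ} (h : V n = r) : dn V n = r := by
  have := dn_spec (V := V) (n := n) ⟨r, h⟩
  rw [h] at this
  exact_mod_cast this.symm

theorem ratAt_getD {V : ℕ → K} (h0 : RatAt V 0) {l : List ℕ} (h : ∀ n ∈ l, RatAt V n) (i : ℕ) :
    RatAt V (l.getD i 0) := by
  rcases lt_or_ge i l.length with hi | hi
  · rw [List.getD_eq_getElem _ _ hi]
    exact h _ (List.getElem_mem hi)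
  · rw [List.getD_eq_default _ _ hi]
    exact h0

/-- constraints with rational values hold over `ℚ` -/
theorem Good.mh (g : Good K) {V : ℕ → K} {x : ℕ × List ℕ} (h0 : RatAt V 0)
    (h : ∀ n ∈ x.2, RatAt V n) (hx : MHF macF V x) : MHF macF (dn V) x := by
  obtain ⟨n, l⟩ := x
  have hr : ∀ i, V (l.getD i 0) = (dn V (l.getD i 0) : K) := fun i => dn_spec (ratAt_getD h0 h i)
  have harr : ∀ p, ArrF p (V (l.getD 0 0)) (V (l.getD 1 0)) (V (l.getD 2 0))
      (V (l.getD 3 0)) (V (l.getD 4 0)) (V (l.getD 5 0)) (V (l.getD 6 0)) (V (l.getD 7 0)) →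
      ArrF p (dn V (l.getD 0 0)) (dn V (l.getD 1 0)) (dn V (l.getD 2 0))
      (dn V (l.getD 3 0)) (dn V (l.getD 4 0)) (dn V (l.getD 5 0)) (dn V (l.getD 6 0))
      (dn V (l.getD 7 0)) := by
    intro p h1
    obtain ⟨z, y, a0, a1, w0, w1, q0, q1, e0, e1, e2, e3, e4, e5, e6, e7, h2⟩ := g.arr h1
    rw [dn_eq e0, dn_eq e1, dn_eq e2, dn_eq e3, dn_eq e4, dn_eq e5, dn_eq e6, dn_eq e7]
    exact h2
  rcases n with _ | _ | _ | _ | _ | _ | _ | _ | _ | _ | n
  · rw [mhf0] at *
    obtain ⟨z, y, w, e0, e1, e2, h2⟩ := g.base hx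
    rw [dn_eq e0, dn_eq e1, dn_eq e2]
    exact h2
  · rw [mhf1] at *
    exact harr 0 hx
  · rw [mhf2] at *
    exact harr 1 hx
  · rw [mhf3] at *
    exact harr 2 hx
  · rw [mhf4] at *
    rw [hr 0, hr 1] at hx
    exact g.nt hx
  · rw [mhf5] at *
    rw [hr 0, hr 1] at hx
    have h1 := nrm_desc hx
    rw [nrm_rat]
    exact_mod_cast h1
  · rw [mhf6] at *
    rw [hr 0, hr 1, hr 2, hr 3] at hx
    have h1 := hst_desc hx
    rw [hst_rat]
    exact_mod_cast h1
  · rw [mhf7] at *
    rw [hr 0, hr 1, hr 2] at hx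
    exact_mod_cast hx
  · rw [mhf8] at *
    rw [hr 0, hr 1, hr 2] at hx
    exact_mod_cast hx
  · rw [mhf9] at *
    rw [hr 0] at hx
    exact_mod_cast hx
  · exact mhf_ge _ _ _ (by omega)

/-! ### propagation of rationality -/

theorem Good.r0 (g : Good K) {V : ℕ → K} {a b c : ℕ} (h : MHF macF V (0, [a, b, c])) :
    RatAt V a ∧ RatAt V b ∧ RatAt V c := by
  rw [mhf0] at h
  obtain ⟨z, y, w, e0, e1, e2, -⟩ := g.base h
  exact ⟨⟨z, e0⟩, ⟨y, e1⟩, ⟨w, e2⟩⟩

/-- all components of an array are rational -/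
def ArrAt (V : ℕ → K) (an : ℕ) : Prop := ∀ d < 6, RatAt V (cmp an d)

theorem Good.rA (g : Good K) {V : ℕ → K} {i an p : ℕ}
    (h : ArrF p (V ((arrArgs i an).getD 0 0)) (V ((arrArgs i an).getD 1 0))
      (V ((arrArgs i an).getD 2 0)) (V ((arrArgs i an).getD 3 0)) (V ((arrArgs i an).getD 4 0))
      (V ((arrArgs i an).getD 5 0)) (V ((arrArgs i an).getD 6 0))
      (V ((arrArgs i an).getD 7 0))) :
    RatAt V (vZ i) ∧ RatAt V (vY i) ∧ ArrAt V an := by
  obtain ⟨z, y, a0, a1, w0, w1, q0, q1, e0, e1, e2, e3, e4, e5, e6, e7, -⟩ := g.arr h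
  refine ⟨⟨z, e0⟩, ⟨y, e1⟩, ?_⟩
  intro d hd
  have : d = 0 ∨ d = 1 ∨ d = 2 ∨ d = 3 ∨ d = 4 ∨ d = 5 := by omega
  rcases this with rfl | rfl | rfl | rfl | rfl | rfl
  · exact ⟨a0, e2⟩
  · exact ⟨a1, e3⟩
  · exact ⟨w0, e4⟩
  · exact ⟨w1, e5⟩
  · exact ⟨q0, e6⟩
  · exact ⟨q1, e7⟩

theorem Good.r1 (g : Good K) {V : ℕ → K} {i an : ℕ} (h : MHF macF V (1, arrArgs i an)) :
    RatAt V (vZ i) ∧ RatAt V (vY i) ∧ ArrAt V an := g.rA ((mhf1 V _).1 h)
theorem Good.r2 (g : Good K) {V : ℕ → K} {i an : ℕ} (h : MHF macF V (2, arrArgs i an)) :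
    RatAt V (vZ i) ∧ RatAt V (vY i) ∧ ArrAt V an := g.rA ((mhf2 V _).1 h)
theorem Good.r3 (g : Good K) {V : ℕ → K} {i an : ℕ} (h : MHF macF V (3, arrArgs i an)) :
    RatAt V (vZ i) ∧ RatAt V (vY i) ∧ ArrAt V an := g.rA ((mhf3 V _).1 h)

theorem r5 {V : ℕ → K} {a b : ℕ} (h : MHF macF V (5, [a, b])) (ha : RatAt V a) : RatAt V b := by
  rw [mhf5] at h
  obtain ⟨r, hr⟩ := ha
  have h' : NrmF (V a) (V b) := h
  rw [hr] at h'
  exact ⟨_, nrm_desc h'⟩

theorem r6 {V : ℕ → K} {a b c d : ℕ} (h : MHF macF V (6, [a, b, c, d])) (ha : RatAt V a)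
    (hb : RatAt V b) (hc : RatAt V c) : RatAt V d := by
  rw [mhf6] at h
  obtain ⟨r, hr⟩ := ha
  obtain ⟨s, hs⟩ := hb
  obtain ⟨t, ht⟩ := hc
  have h' : HstF (V a) (V b) (V c) (V d) := h
  rw [hr, hs, ht] at h'
  exact ⟨_, hst_desc h'⟩

theorem r7 {V : ℕ → K} {a b c : ℕ} (h : MHF macF V (7, [a, b, c])) (ha : RatAt V a)
    (hb : RatAt V b) : RatAt V c := by
  rw [mhf7] at h
  obtain ⟨r, hr⟩ := ha
  obtain ⟨s, hs⟩ := hb
  have h' : V a + V b = V c := h
  exact ⟨r + s, by rw [← h', hr, hs]; push_cast; rfl⟩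

theorem r8 {V : ℕ → K} {a b c : ℕ} (h : MHF macF V (8, [a, b, c])) (ha : RatAt V a)
    (hb : RatAt V b) : RatAt V c := by
  rw [mhf8] at h
  obtain ⟨r, hr⟩ := ha
  obtain ⟨s, hs⟩ := hb
  have h' : V a * V b = V c := h
  exact ⟨r * s, by rw [← h', hr, hs]; push_cast; rfl⟩

/-! ### families of tests -/

theorem down {P : ℕ → Prop} {n : ℕ} (h : P n) (hs : ∀ t < n, P (t + 1) → P t) : ∀ t ≤ n, P t := by
  intro t ht
  induction n with
  | zero =>
    have : t = 0 := by omega
    rw [this]; exact h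
  | succ n ih =>
    rcases Nat.lt_or_ge n t with h1 | h1
    · have : t = n + 1 := by omega
      rw [this]; exact h
    · exact ih (hs n (by omega) h) (fun s hs' => hs s (by omega)) h1

theorem obs_rat {V : ℕ → K} {o : ℕ} {ps : List (ℕ × ℕ)} {cls : List (List ℕ)}
    (hc : ∀ c ≤ ps.length, RatAt V (vC c)) (h1 : RatAt V (vC 1)) (h319 : RatAt V (vC 319))
    (hps : ∀ p ∈ ps, ArrAt V p.1 ∧ ArrAt V p.2) (hcls : ∀ cl ∈ cls, ∀ n ∈ cl, RatAt V n)
    (h : ∀ x ∈ obsC o ps cls, MHF macF V x) :
    ∀ x ∈ obsC o ps cls, ∀ n ∈ x.2, RatAt V n := by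
  have hP := fun x hx => h x (List.mem_append_left _ (List.mem_append_left _ hx))
  have hA := fun x hx => h x (List.mem_append_left _ (List.mem_append_right _ hx))
  have hB := fun x hx => h x (List.mem_append_right _ hx)
  have hcmp : ∀ t (ht : t < ps.length), (∀ d < 6, RatAt V (cmp ps[t].1 d)) ∧
      ∀ d < 6, RatAt V (cmp ps[t].2 d) := fun t ht =>
    ⟨(hps _ (List.getElem_mem ht)).1, (hps _ (List.getElem_mem ht)).2⟩
  -- products
  have hP' : ∀ t < ps.length, RatAt V (vP o t) := by
    intro t ht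
    have := hP _ (List.mem_map.mpr ⟨_, mem_zipIdx_of ht, rfl⟩)
    exact r8 this ((hcmp t ht).1 0 (by norm_num)) ((hcmp t ht).2 1 (by norm_num))
  -- values for fixed `c`
  have hN : ∀ c < ps.length, (∀ t ≤ ps.length, RatAt V (vN o c t)) ∧
      (∀ t < ps.length, RatAt V (vQ o c t)) ∧ (∀ t < ps.length, RatAt V (vH o c t)) ∧
      (∀ t ≤ ps.length, RatAt V (vHH o c t)) ∧ RatAt V (vG o c) := by
    intro c hcl
    have hA' := fun x hx => hA x (List.mem_flatMap.mpr ⟨c, List.mem_range.mpr hcl, hx⟩)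
    have h0 := hA' (7, [vC 0, vC 0, vN o c ps.length]) (by simp [obsC1])
    have h1' := hA' (8, [vC 1, vC 1, vHH o c ps.length]) (by simp [obsC1])
    have hG := hA' (8, [vC 319, vHH o c 0, vG o c]) (by simp [obsC1])
    have hs := fun t ht x hx => hA' x (List.mem_append_right _
      (List.mem_flatMap.mpr ⟨(ps[t]'ht, t), mem_zipIdx_of ht, hx⟩))
    have hc0 : RatAt V (vC 0) := hc 0 (Nat.zero_le _)
    have hcc : RatAt V (vC (c + 1)) := hc (c + 1) hcl
    have e1 : ∀ t ≤ ps.length, RatAt V (vN o c t) := by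
      refine down (r7 h0 hc0 hc0) fun t ht ih => ?_
      have q1 := hs t ht (8, [vC (c + 1), vN o c (t + 1), vQ o c t]) (by simp)
      have q2 := hs t ht (7, [vP o t, vQ o c t, vN o c t]) (by simp)
      exact r7 q2 (hP' t ht) (r8 q1 hcc ih)
    have e2 : ∀ t < ps.length, RatAt V (vQ o c t) := fun t ht =>
      r8 (hs t ht (8, [vC (c + 1), vN o c (t + 1), vQ o c t]) (by simp)) hcc (e1 _ ht)
    have e3 : ∀ t < ps.length, RatAt V (vH o c t) := fun t ht =>
      r6 (hs t ht (6, [vN o c 0, cmp ps[t].1 2, cmp ps[t].2 3, vH o c t]) (by simp))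
        (e1 0 (Nat.zero_le _)) ((hcmp t ht).1 2 (by norm_num)) ((hcmp t ht).2 3 (by norm_num))
    have e4 : ∀ t ≤ ps.length, RatAt V (vHH o c t) := by
      refine down (r8 h1' h1 h1) fun t ht ih => ?_
      exact r8 (hs t ht (8, [vH o c t, vHH o c (t + 1), vHH o c t]) (by simp)) (e3 t ht) ih
    exact ⟨e1, e2, e3, e4, r8 hG h319 (e4 0 (Nat.zero_le _))⟩
  -- clauses
  have hK : ∀ s (hs : s < cls.length), (∀ u < cls[s].length, RatAt V (vL o s u)) ∧
      (∀ u ≤ cls[s].length, RatAt V (vK o s u)) ∧ ∀ c < ps.length, RatAt V (vF o c s) := by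
    intro s hs
    have hB' := fun x hx => hB x (List.mem_flatMap.mpr ⟨_, mem_zipIdx_of hs, hx⟩)
    have h0 := hB' (8, [vC 1, vC 1, vK o s cls[s].length]) (by simp [obsC2])
    have hs1 := fun x hx => hB' x (List.mem_append_left _ (List.mem_append_right _ hx))
    have e1 : ∀ u < cls[s].length, RatAt V (vL o s u) := by
      intro u hu
      have h2 := fun x hx => hs1 x (List.mem_flatMap.mpr ⟨_, mem_zipIdx_of hu, hx⟩)
      exact r5 (h2 (5, [cls[s][u], vL o s u]) (by simp))
        (hcls _ (List.getElem_mem hs) _ (List.getElem_mem hu))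
    have e2 : ∀ u ≤ cls[s].length, RatAt V (vK o s u) := by
      refine down (r8 h0 h1 h1) fun u hu ih => ?_
      have h2 := fun x hx => hs1 x (List.mem_flatMap.mpr ⟨_, mem_zipIdx_of hu, hx⟩)
      exact r8 (h2 (8, [vL o s u, vK o s (u + 1), vK o s u]) (by simp)) (e1 u hu) ih
    refine ⟨e1, e2, fun c hcl => ?_⟩
    have hs2 := fun x hx => hB' x (List.mem_append_right _
      (List.mem_flatMap.mpr ⟨c, List.mem_range.mpr hcl, hx⟩))
    exact r8 (hs2 (8, [vG o c, vK o s 0, vF o c s]) (by simp)) (hN c hcl).2.2.2.2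
      (e2 0 (Nat.zero_le _))
  intro x hx
  rcases List.mem_append.mp hx with hx | hx
  · rcases List.mem_append.mp hx with hx | hx
    · obtain ⟨p, hp, rfl⟩ := List.mem_map.mp hx
      obtain ⟨ht, hp1⟩ := of_mem_zipIdx hp
      have h2 := hcmp _ ht
      simp only [List.forall_mem_cons, List.not_mem_nil, false_imp_iff, implies_true, and_true, hp1]
      exact ⟨h2.1 0 (by norm_num), h2.2 1 (by norm_num), hP' _ ht⟩
    · obtain ⟨c, hcl, hx⟩ := List.mem_flatMap.mp hx
      rw [List.mem_range] at hcl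
      obtain ⟨e1, e2, e3, e4, e5⟩ := hN c hcl
      rcases List.mem_append.mp hx with hx | hx
      · simp only [List.mem_cons, List.not_mem_nil, or_false] at hx
        rcases hx with rfl | rfl | rfl <;>
          simp only [List.forall_mem_cons, List.not_mem_nil, false_imp_iff, implies_true, and_true]
        · exact ⟨hc 0 (Nat.zero_le _), hc 0 (Nat.zero_le _), e1 _ le_rfl⟩
        · exact ⟨h1, h1, e4 _ le_rfl⟩
        · exact ⟨h319, e4 0 (Nat.zero_le _), e5⟩
      · obtain ⟨p, hp, hx⟩ := List.mem_flatMap.mp hx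
        obtain ⟨ht, hp1⟩ := of_mem_zipIdx hp
        have h2 := hcmp _ ht
        simp only [List.mem_cons, List.not_mem_nil, or_false] at hx
        rcases hx with rfl | rfl | rfl | rfl <;>
          simp only [List.forall_mem_cons, List.not_mem_nil, false_imp_iff, implies_true, and_true]
        · exact ⟨hc (c + 1) hcl, e1 _ ht, e2 _ ht⟩
        · exact ⟨hP' _ ht, e2 _ ht, e1 _ ht.le⟩
        · rw [hp1]
          exact ⟨e1 0 (Nat.zero_le _), h2.1 2 (by norm_num), h2.2 3 (by norm_num), e3 _ ht⟩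
        · exact ⟨e3 _ ht, e4 _ ht, e4 _ ht.le⟩
  · obtain ⟨q, hq, hx⟩ := List.mem_flatMap.mp hx
    obtain ⟨hs, hq1⟩ := of_mem_zipIdx hq
    obtain ⟨e1, e2, e3⟩ := hK _ hs
    rcases List.mem_append.mp hx with hx | hx
    · rcases List.mem_append.mp hx with hx | hx
      · simp only [List.mem_cons, List.not_mem_nil, or_false] at hx
        subst hx
        simp only [List.forall_mem_cons, List.not_mem_nil, false_imp_iff, implies_true, and_true]
        rw [hq1]
        exact ⟨h1, h1, e2 _ le_rfl⟩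
      · obtain ⟨y, hy, hx⟩ := List.mem_flatMap.mp hx
        obtain ⟨hu, hy1⟩ := of_mem_zipIdx hy
        have hu' : y.2 < cls[q.2].length := by rw [← hq1]; exact hu
        have hy2 : y.1 = cls[q.2][y.2] := by simp only [hy1, hq1]
        simp only [List.mem_cons, List.not_mem_nil, or_false] at hx
        rcases hx with rfl | rfl <;>
          simp only [List.forall_mem_cons, List.not_mem_nil, false_imp_iff, implies_true, and_true]
        · rw [hy2]
          exact ⟨hcls _ (List.getElem_mem hs) _ (List.getElem_mem hu'), e1 _ hu'⟩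
        · exact ⟨e1 _ hu', e2 _ hu', e2 _ hu'.le⟩
    · obtain ⟨c, hcl, hx⟩ := List.mem_flatMap.mp hx
      rw [List.mem_range] at hcl
      simp only [List.mem_cons, List.not_mem_nil, or_false] at hx
      rcases hx with rfl | rfl <;>
        simp only [List.forall_mem_cons, List.not_mem_nil, false_imp_iff, implies_true, and_true]
      · exact ⟨(hN c hcl).2.2.2.2, e2 0 (Nat.zero_le _), e3 c hcl⟩
      · exact ⟨(hN c hcl).1 0 (Nat.zero_le _), e3 c hcl⟩

/-! ### all constraints -/

theorem getD_mem_nPairs {M i l : ℕ} (h : i ≤ M) (hl : l < i + 1) :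
    (nPairs M i).getD l (0, 0) ∈ nPairs M i := by
  have hl' : l < (nPairs M i).length := by rw [length_nPairs h]; exact hl
  rw [List.getD_eq_getElem _ _ hl']
  exact List.getElem_mem hl'

/-- the values of a solution are rational -/
theorem Good.rat (g : Good K) {I : DInst} {V : ℕ → K} (h : ∀ x ∈ cons I, MHF macF V x) :
    RatAt V 0 ∧ ∀ x ∈ cons I, ∀ n ∈ x.2, RatAt V n := by
  unfold cons at h
  simp only [List.forall_mem_append] at h
  obtain ⟨⟨⟨⟨⟨hC, hL⟩, hT⟩, hS⟩, hE⟩, hI⟩ := h
  set m := I.1.length with hm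
  -- constants
  have hC' : ∀ c ≤ 2000 + (m + 2), V (vC c) = ((c : ℚ) : K) := by
    have h1 : V (vC 1) = 1 := (mhf9 V _).1 (hC (9, [vC 1]) (by simp [consC]))
    have h2 : ∀ c < 2000 + (m + 2), V (vC c) + V (vC 1) = V (vC (c + 1)) := fun c hc =>
      (mhf7 V _).1 (hC (7, [vC c, vC 1, vC (c + 1)]) (by
        unfold consC
        refine List.mem_append_right _ (List.mem_map.2 ⟨c, List.mem_range.2 hc, rfl⟩)))
    intro c
    induction c with
    | zero =>
      intro _
      have := h2 0 (by omega)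
      simpa using this
    | succ c ih =>
      intro hc
      rw [← h2 c (by omega), ih (by omega), h1]
      push_cast
      rfl
  have rC : ∀ c ≤ 2000 + (m + 2), RatAt V (vC c) := fun c hc => ⟨_, hC' c hc⟩
  have rC1 := rC 1 (by omega)
  have rC319 := rC 319 (by omega)
  -- levels
  have hL' : ∀ i < m + 2, (RatAt V (vZ i) ∧ RatAt V (vY i) ∧ RatAt V (vW i)) ∧
      (ArrAt V (aD i 0) ∧ ArrAt V (aD i 1)) ∧ ∀ l < i, ArrAt V (aA i l 0) ∧ ArrAt V (aA i l 1) := by
    intro i hi
    have h1 := fun x hx => hL x (List.mem_flatMap.2 ⟨i, List.mem_range.2 hi, hx⟩)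
    refine ⟨g.r0 (h1 _ (by simp [consL])), ⟨(g.r2 (i := i) (h1 _ (by simp [consL]))).2.2,
      (g.r3 (i := i) (h1 _ (by simp [consL]))).2.2⟩, fun l hl => ?_⟩
    have h2 := fun x hx => h1 x (List.mem_append_right _ (List.mem_flatMap.2 ⟨l,
      List.mem_range.2 (by omega), hx⟩))
    exact ⟨(g.r1 (i := i) (h2 _ (by simp))).2.2, (g.r1 (i := i) (h2 (1, arrArgs i (aA i l 1)) (by simp))).2.2⟩
  have rS : ArrAt V aS := (g.r2 (i := m + 1) (hT _ (by simp [consT]))).2.2
  have rB : ∀ k < I.2.1.length, ArrAt V (aB k) := fun k hk =>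
    (g.r1 (i := m + 1) (hT (1, arrArgs (m + 1) (aB k)) (List.mem_append_right _
      (List.mem_map.2 ⟨k, List.mem_range.2 hk, rfl⟩)))).2.2
  have rPairs : ∀ i ≤ m, ∀ p ∈ nPairs (m + 2) i, ArrAt V p.1 ∧ ArrAt V p.2 := by
    intro i hi p hp
    unfold nPairs at hp
    rcases List.mem_append.1 hp with hp | hp
    · obtain ⟨l, hl, rfl⟩ := List.mem_map.1 hp
      rw [List.mem_range] at hl
      exact (hL' i (by omega)).2.2 l (by omega)
    · rw [List.mem_singleton] at hp
      subst hp
      exact (hL' i (by omega)).2.1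
  have rStep : ∀ i ≤ m, ∀ cl ∈ nStepCls (m + 2) i, ∀ n ∈ cl, RatAt V n := by
    intro i hi cl hcl n hn
    unfold nStepCls at hcl
    rcases List.mem_append.1 hcl with hcl | hcl
    · simp only [List.mem_cons, List.not_mem_nil, or_false] at hcl
      rcases hcl with rfl | rfl | rfl <;> rw [List.mem_singleton] at hn <;> subst hn
      · exact (hL' (i + 1) (by omega)).1.2.2
      · exact (hL' (i + 1) (by omega)).2.1.1 4 (by norm_num)
      · exact (hL' (i + 1) (by omega)).2.1.2 5 (by norm_num)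
    · obtain ⟨l, hl, hcl⟩ := List.mem_flatMap.1 hcl
      rw [List.mem_range] at hl
      have hl' : l < i + 1 := by omega
      have h1 := rPairs i hi _ (getD_mem_nPairs (show i ≤ m + 2 by omega) hl')
      have h2 := (hL' (i + 1) (by omega)).2.2 l hl'
      obtain ⟨x, hx, hcl⟩ := List.mem_flatMap.1 hcl
      have hx' : RatAt V x := by
        simp only [List.mem_cons, List.not_mem_nil, or_false] at hx
        rcases hx with rfl | rfl | rfl
        · exact h1.1 2 (by norm_num)
        · exact h2.1 4 (by norm_num)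
        · exact h2.2 4 (by norm_num)
      simp only [List.mem_cons, List.not_mem_nil, or_false] at hcl
      rcases hcl with rfl | rfl | rfl <;>
        simp only [List.mem_cons, List.not_mem_nil, or_false] at hn <;>
        rcases hn with rfl | rfl
      · exact hx'
      · exact h1.2 3 (by norm_num)
      · exact hx'
      · exact h2.1 5 (by norm_num)
      · exact hx'
      · exact h2.2 5 (by norm_num)
  have rAtom : ∀ l : Bool × Bool × ℕ, RatAt V (nAtom I l) := by
    intro l
    unfold nAtom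
    split_ifs with h1 h2 h3 h4 h5
    · exact rB _ h2 5 (by norm_num)
    · exact rB _ h2 4 (by norm_num)
    · exact rC1
    · exact ((hL' (m + 1) (by omega)).2.2 l.2.2 (by omega)).1 5 (by norm_num)
    · exact ((hL' (m + 1) (by omega)).2.2 l.2.2 (by omega)).1 4 (by norm_num)
    · exact rC1
  have rLast : ∀ cl ∈ nLastCls I, ∀ n ∈ cl, RatAt V n := by
    intro cl hcl n hn
    unfold nLastCls at hcl
    rcases List.mem_append.1 hcl with hcl | hcl
    · rcases List.mem_append.1 hcl with hcl | hcl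
      · rw [List.mem_singleton] at hcl
        subst hcl
        rw [List.mem_singleton] at hn
        subst hn
        exact rS 4 (by norm_num)
      · obtain ⟨k, hk, rfl⟩ := List.mem_map.1 hcl
        rw [List.mem_range] at hk
        simp only [List.mem_cons, List.not_mem_nil, or_false] at hn
        rcases hn with rfl | rfl
        · exact rB k hk 4 (by norm_num)
        · exact rB k hk 5 (by norm_num)
    · obtain ⟨c', -, rfl⟩ := List.mem_map.1 hcl
      obtain ⟨l, -, rfl⟩ := List.mem_map.1 hn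
      exact rAtom l
  have rInd : ∀ j, ∀ p ∈ nInd m j (List.range (m + 1)), ArrAt V p.1 ∧ ArrAt V p.2 := by
    intro j p hp
    unfold nInd at hp
    rcases List.mem_append.1 hp with hp | hp
    · obtain ⟨l, hl, rfl⟩ := List.mem_map.1 hp
      have hl' := List.mem_range.1 (List.mem_of_mem_filter hl)
      exact (hL' (m + 1) (by omega)).2.2 l (by omega)
    · rw [List.mem_singleton] at hp
      subst hp
      exact ⟨rS, rS⟩
  have hlen : ∀ i ≤ m, (nPairs (m + 2) i).length = i + 1 := fun i hi => length_nPairs (by omega)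
  refine ⟨rC 0 (by omega), ?_⟩
  unfold cons
  rw [← hm]
  simp only [List.forall_mem_append]
  refine ⟨⟨⟨⟨⟨?_, ?_⟩, ?_⟩, ?_⟩, ?_⟩, ?_⟩
  · intro x hx n hn
    unfold consC at hx
    rcases List.mem_append.1 hx with hx | hx
    · rw [List.mem_singleton] at hx
      subst hx
      rw [List.mem_singleton] at hn
      subst hn
      exact rC1
    · obtain ⟨c, hc, rfl⟩ := List.mem_map.1 hx
      rw [List.mem_range] at hc
      simp only [List.mem_cons, List.not_mem_nil, or_false] at hn
      rcases hn with rfl | rfl | rfl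
      · exact rC _ (by omega)
      · exact rC1
      · exact rC _ (by omega)
  · intro x hx
    obtain ⟨i, hi, hx⟩ := List.mem_flatMap.1 hx
    rw [List.mem_range] at hi
    obtain ⟨⟨a1, a2, a3⟩, ⟨a4, a5⟩, a6⟩ := hL' i hi
    have r11 := rC 11 (by omega)
    have r29 := rC 29 (by omega)
    have harr : ∀ an, ArrAt V an → ∀ n ∈ arrArgs i an, RatAt V n := by
      intro an ha n hn
      simp only [arrArgs, List.mem_cons, List.not_mem_nil, or_false] at hn
      rcases hn with rfl | rfl | rfl | rfl | rfl | rfl | rfl | rfl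
      · exact a1
      · exact a2
      all_goals exact ha _ (by norm_num)
    unfold consL at hx
    rcases List.mem_append.1 hx with hx | hx
    · simp only [List.mem_cons, List.not_mem_nil, or_false] at hx
      rcases hx with rfl | rfl | rfl | rfl | rfl | rfl | rfl | rfl | rfl
      · simp only [List.forall_mem_cons, List.not_mem_nil, false_imp_iff, implies_true, and_true]
        exact ⟨a1, a2, a3⟩
      · exact harr _ a4
      · exact harr _ a5
      all_goals
        simp only [List.forall_mem_cons, List.not_mem_nil, false_imp_iff, implies_true, and_true]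
      · exact ⟨r11, a3⟩
      · exact ⟨r29, a3⟩
      · exact ⟨r11, a4 _ (by norm_num)⟩
      · exact ⟨r11, a5 _ (by norm_num)⟩
      · exact ⟨r29, a4 _ (by norm_num)⟩
      · exact ⟨r29, a5 _ (by norm_num)⟩
    · obtain ⟨l, hl, hx⟩ := List.mem_flatMap.1 hx
      rw [List.mem_range] at hl
      obtain ⟨b1, b2⟩ := a6 l (by omega)
      simp only [List.mem_cons, List.not_mem_nil, or_false] at hx
      rcases hx with rfl | rfl | rfl | rfl | rfl | rfl
      · exact harr _ b1
      · exact harr _ b2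
      all_goals
        simp only [List.forall_mem_cons, List.not_mem_nil, false_imp_iff, implies_true, and_true]
      · exact ⟨r11, b1 _ (by norm_num)⟩
      · exact ⟨r11, b2 _ (by norm_num)⟩
      · exact ⟨r29, b1 _ (by norm_num)⟩
      · exact ⟨r29, b2 _ (by norm_num)⟩
  · intro x hx
    obtain ⟨⟨a1, a2, a3⟩, -, -⟩ := hL' (m + 1) (by omega)
    have r1931 := rC 1931 (by omega)
    have harr : ∀ an, ArrAt V an → ∀ n ∈ arrArgs (m + 1) an, RatAt V n := by
      intro an ha n hn
      simp only [arrArgs, List.mem_cons, List.not_mem_nil, or_false] at hn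
      rcases hn with rfl | rfl | rfl | rfl | rfl | rfl | rfl | rfl
      · exact a1
      · exact a2
      all_goals exact ha _ (by norm_num)
    unfold consT at hx
    rcases List.mem_append.1 hx with hx | hx
    · simp only [List.mem_cons, List.not_mem_nil, or_false] at hx
      obtain ⟨⟨b1, b2, b3⟩, ⟨b4, b5⟩, -⟩ := hL' 0 (by omega)
      rcases hx with rfl | rfl | rfl | rfl
      · exact harr _ rS
      all_goals
        simp only [List.forall_mem_cons, List.not_mem_nil, false_imp_iff, implies_true, and_true]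
      · exact ⟨r1931, b3⟩
      · exact ⟨r1931, b4 _ (by norm_num)⟩
      · exact ⟨r1931, b5 _ (by norm_num)⟩
    · obtain ⟨k, hk, rfl⟩ := List.mem_map.1 hx
      rw [List.mem_range] at hk
      exact harr _ (rB k hk)
  · intro x hx
    obtain ⟨i, hi, hx⟩ := List.mem_flatMap.1 hx
    rw [List.mem_range] at hi
    refine obs_rat (fun c hc => rC c ?_) rC1 rC319 (rPairs i hi.le) (rStep i hi.le)
      (fun y hy => hS y (List.mem_flatMap.2 ⟨i, List.mem_range.2 hi, hy⟩)) x hx
    rw [hlen i hi.le] at hc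
    omega
  · refine obs_rat (fun c hc => rC c ?_) rC1 rC319 (rPairs m le_rfl) ?_ hE
    · rw [hlen m le_rfl] at hc
      omega
    · intro cl hcl
      rcases List.mem_append.1 hcl with hcl | hcl
      · exact rStep m le_rfl cl hcl
      · exact rLast cl hcl
  · intro x hx
    unfold consI at hx
    obtain ⟨k, hk, hx⟩ := List.mem_flatMap.1 hx
    obtain ⟨j, hj, hx⟩ := List.mem_flatMap.1 hx
    rw [List.mem_range] at hk hj
    split_ifs at hx with hkj
    · refine obs_rat (fun c hc => rC c ?_) rC1 rC319 (rInd j) ?_ (fun y hy => hI y ?_) x hx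
      · have := length_nInd m j
        omega
      · intro cl hcl
        rw [List.mem_singleton] at hcl
        subst hcl
        simp only [List.forall_mem_cons, List.not_mem_nil, false_imp_iff, implies_true, and_true]
        exact ⟨rB k hk 2 (by norm_num), rB k hk 3 (by norm_num), rS 3 (by norm_num)⟩
      · unfold consI
        refine List.mem_flatMap.2 ⟨k, List.mem_range.2 hk, List.mem_flatMap.2 ⟨j,
          List.mem_range.2 hj, ?_⟩⟩
        rw [if_pos hkj]
        exact hy
    · simp at hx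

/-- over a good field the system attached to an instance of DQBF is solvable if and only if it is
solvable over the rational numbers -/
theorem Good.sysI (g : Good K) (I : DInst) :
    (∃ v : ℕ → K, ∀ c ∈ sysI I, HoldsF v c) ↔ RSat I := by
  constructor
  · intro h
    unfold NX.sysI at h
    rw [sat_compT _ g.anis.sqZ] at h
    obtain ⟨V, hV⟩ := h
    obtain ⟨h0, h1⟩ := g.rat hV
    rw [← cons_iff dioHyp I]
    exact ⟨dn V, fun x hx => (mhf_rat dioHyp _ _).1 (g.mh h0 (h1 x hx) (hV x hx))⟩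
  · intro h
    obtain ⟨v, hv⟩ := (sysI_rat I).2 h
    refine ⟨fun n => (v n : K), fun c hc => ?_⟩
    have h1 := hv c hc
    cases c <;> simp only [HoldsF] at h1 ⊢ <;> exact_mod_cast h1

end

end Pool.Agent.Y556.NX
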