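import Pool.Agent.Y556.NX.KVal
import Pool.Agent.Y556.NX.FComp
import Pool.Agent.Y556.NX.Gad

/-!
# Descent of the basic relations from a number field of odd degree to the rational numbers
-/

set_option autoImplicit false

namespace Pool.Agent.Y556.NX

open Pool.Agent.NPC Pool.Agent.H528R2 Pool.Agent.H528R2.Dio

/-- the properties of the field which are used -/
structure Good (K : Type) [Field K] [CharZero K] : Prop where
  anis : Anis K
  sq : ∀ r : ℚ, IsSquare (r : K) → IsSquare r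
  ov : ∀ q, Inert q → Nonempty (OV K q)
  stab : ∀ z y : K, y ^ 2 = z ^ 3 - 2 * z ^ 2 + 65 * z → (∃ a : ℚ, z = a) ∧ ∃ b : ℚ, y = b

section

variable {K : Type} [Field K] [CharZero K]

/-! ### the tests -/

theorem ov_one {q : ℕ} (o : OV K q) : o.v 1 = 0 := by
  have h := o.v_mul (one_ne_zero (α := K)) one_ne_zero
  rw [mul_one] at h
  omega

theorem ov_two {q : ℕ} (hq : Inert q) (o : OV K q) (k : ℕ) : o.v ((2 : K) ^ k) = 0 := by
  have h := o.v_rat (r := (2 : ℚ) ^ k) (by positivity)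
  rw [ti_val_two_pow hq, mul_zero] at h
  push_cast at h
  exact h

theorem ov_neg {q : ℕ} (o : OV K q) {x : K} (hx : x ≠ 0) : o.v (-x) = o.v x := by
  have h1 := o.v_mul (neg_ne_zero.2 (one_ne_zero (α := K))) (neg_ne_zero.2 one_ne_zero)
  rw [neg_mul_neg, mul_one, ov_one] at h1
  have h2 := o.v_mul (neg_ne_zero.2 (one_ne_zero (α := K))) hx
  rw [neg_one_mul] at h2
  omega

theorem ov_even {q : ℕ} (hq : Inert q) (o : OV K q) {x : K} (hx : IsNF x) : Even (o.v x) := by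
  obtain ⟨hx0, c, e, rfl⟩ := hx
  by_cases hc : c = 0
  · have he : e ≠ 0 := by
      rintro rfl
      apply hx0
      rw [hc]
      ring
    have h1 : c ^ 2 - 2 * e ^ 2 = -(2 ^ 1 * (e * e)) := by
      rw [hc]
      ring
    have h2 : (2 : K) ^ 1 * (e * e) ≠ 0 := mul_ne_zero (by norm_num) (mul_ne_zero he he)
    rw [h1, ov_neg o h2, o.v_mul (by norm_num) (mul_ne_zero he he), ov_two hq,
      o.v_mul he he, zero_add]
    exact ⟨_, rfl⟩
  · by_cases he : e = 0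
    · have h1 : c ^ 2 - 2 * e ^ 2 = c * c := by
        rw [he]
        ring
      rw [h1, o.v_mul hc hc]
      exact ⟨_, rfl⟩
    · rw [(o.v_form hc he).2]
      exact even_two_mul _

/-- soundness of `TF` -/
theorem tf_sound {N F : K} (h : TF N F) {q : ℕ} (hq : Inert q) (o : OV K q) (hN : N ≠ 0)
    (hodd : Odd (o.v N)) : F = 0 ∨ o.v N < 2 * o.v F := by
  obtain ⟨w, hw⟩ := h
  by_cases hF : F = 0
  · exact Or.inl hF
  right
  by_contra hcon
  push Not at hcon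
  obtain ⟨hD, k, hk, hkF⟩ : F ^ 2 - 2 * w ^ 2 ≠ 0 ∧ ∃ k : ℤ, o.v (F ^ 2 - 2 * w ^ 2) = 2 * k ∧
      k ≤ o.v F := by
    by_cases hw0 : w = 0
    · have e1 : F ^ 2 - 2 * w ^ 2 = F * F := by rw [hw0]; ring
      refine ⟨by rw [e1]; exact mul_ne_zero hF hF, o.v F, ?_, le_rfl⟩
      rw [e1, o.v_mul hF hF]
      ring
    · exact ⟨(o.v_form hF hw0).1, _, (o.v_form hF hw0).2, min_le_left _ _⟩
  obtain ⟨j, hj⟩ := hodd
  have hlt : o.v (F ^ 2 - 2 * w ^ 2) < o.v N := by omega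
  obtain ⟨hsum0, hval⟩ := o.v_add hD hN hlt
  have he := ov_even hq o hw
  have hrw : N * (N + F ^ 2 - 2 * w ^ 2) = N * ((F ^ 2 - 2 * w ^ 2) + N) := by ring
  rw [hrw, o.v_mul hN hsum0, hval] at he
  obtain ⟨i, hi⟩ := he
  omega

theorem test_desc {N F : ℚ} (hN : N ≠ 0) (h : TestF (N : K) (F : K)) {q : ℕ} (hq : Inert q)
    (o : OV K q) (hodd : Odd (padicValRat q N)) : Vge q 1 F := by
  obtain ⟨ν, e, a, hν, ha, h1, h2, h3⟩ := h
  have hNK : (N : K) ≠ 0 := by exact_mod_cast hN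
  have hν0 : ν ≠ 0 := hν.1
  have hNν : (N : K) * ν ≠ 0 := mul_ne_zero hNK hν0
  have ha0 : a ≠ 0 := by
    rintro rfl
    rw [zero_mul] at ha
    exact zero_ne_one ha
  obtain ⟨i, hi⟩ := ov_even hq o hν
  have hoddN : Odd (o.v (N : K)) := by
    rw [o.v_rat hN]
    exact o.odd_e.mul hodd
  have hodd' : Odd (o.v ((N : K) * ν)) := by
    rw [o.v_mul hNK hν0, hi]
    exact hoddN.add_even ⟨i, rfl⟩
  have hva : o.v a = - o.v ((N : K) * ν) := by
    have := o.v_mul ha0 hNν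
    rw [ha, ov_one] at this
    omega
  have hpos : 0 < o.v ((N : K) * ν) := by
    have h4 : Odd (o.v a) := by rw [hva]; exact hodd'.neg
    rcases tf_sound h1 hq o ha0 h4 with h5 | h5
    · exact absurd h5 one_ne_zero
    · rw [hva, ov_one] at h5
      omega
  have h32' : (32 : K) ≠ 0 := by norm_num
  have h32 : o.v (32 : K) = 0 := by
    have := ov_two hq o 5
    norm_num at this
    exact this
  have he : e ≠ 0 ∧ o.v e = 0 := by
    rcases tf_sound h2 hq o hNν hodd' with h5 | h5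
    · have : e = 1 := by
        have := (mul_eq_zero.1 h5).resolve_left h32'
        exact sub_eq_zero.1 this
      rw [this]
      exact ⟨one_ne_zero, ov_one o⟩
    · by_cases he1 : e - 1 = 0
      · have : e = 1 := sub_eq_zero.1 he1
        rw [this]
        exact ⟨one_ne_zero, ov_one o⟩
      · rw [o.v_mul h32' he1, h32] at h5
        have h6 : o.v (1 : K) < o.v (e - 1) := by rw [ov_one]; omega
        obtain ⟨h7, h8⟩ := o.v_add (one_ne_zero (α := K)) he1 h6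
        have h9 : (1 : K) + (e - 1) = e := by ring
        rw [h9, ov_one] at h8
        rw [h9] at h7
        exact ⟨h7, h8⟩
  rcases tf_sound h3 hq o hNν hodd' with h5 | h5
  · left
    have h6 := (mul_eq_zero.1 h5).resolve_left (mul_ne_zero h32' he.1)
    exact_mod_cast h6
  · by_cases hF : F = 0
    · exact Or.inl hF
    right
    have hFK : (F : K) ≠ 0 := by exact_mod_cast hF
    rw [o.v_mul (mul_ne_zero h32' he.1) hFK, o.v_mul h32' he.1, h32, he.2, o.v_rat hF] at h5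
    have h6 : 0 < o.e * padicValRat q F := by omega
    have h7 : 0 < padicValRat q F := by
      by_contra h8
      push Not at h8
      have := mul_nonpos_of_nonneg_of_nonpos o.pos_e.le h8
      omega
    omega

theorem Good.nt (g : Good K) {N F : ℚ} (h : NTF (N : K) (F : K)) : NTF N F := by
  rcases h with h | h
  · left; exact_mod_cast h
  · by_cases hN : N = 0
    · exact Or.inl hN
    right
    have h1 : Test N F := by
      rw [test_iff hN]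
      intro q hq hodd
      obtain ⟨o⟩ := g.ov q hq
      exact test_desc hN h hq o hodd
    exact (test_iff_ex N F).1 h1

/-! ### the other relations -/

theorem nrm_desc {x : ℚ} {y : K} (h : NrmF (x : K) y) : y = ((nrm x : ℚ) : K) := by
  unfold NrmF at h
  have h1 : ((x : K) ^ 2 - 2) ≠ 0 := by exact_mod_cast sq_ne_two x
  unfold nrm
  push_cast
  rw [eq_div_iff h1]
  exact h

theorem inv_desc {w : ℚ} {a : K} (h : InvF (w : K) a) : a = ((1 / w : ℚ) : K) := by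
  push_cast
  rcases h with h | ⟨h1, h2⟩
  · exact eq_one_div_of_mul_eq_one_right h
  · rw [h1, h2, div_zero]

theorem hst_desc {N w w' : ℚ} {y : K} (h : HstF (N : K) (w : K) (w' : K) y) :
    y = ((hst N w w' : ℚ) : K) := by
  obtain ⟨a, b, N', ζ, h1, h2, h3, h4, h5⟩ := h
  have ha := inv_desc h1
  have hb := inv_desc h2
  set a0 : ℚ := 1 / w with ha0
  set b0 : ℚ := 1 / w' with hb0
  have n1 := sq_ne_two a0
  have n2 := sq_ne_two b0
  have n3 := sq_ne_two N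
  have hN' : N' = ((N / (N ^ 2 - 2) : ℚ) : K) := by
    have : ((N : K) ^ 2 - 2) ≠ 0 := by exact_mod_cast n3
    push_cast
    rw [eq_div_iff this]
    exact h3
  have hζ : ζ = ((1 / ((a0 ^ 2 - 2) * (b0 ^ 2 - 2)) : ℚ) : K) := by
    rw [ha, hb] at h4
    have : (((a0 : K)) ^ 2 - 2) * ((b0 : K) ^ 2 - 2) ≠ 0 := by exact_mod_cast mul_ne_zero n1 n2
    push_cast
    exact eq_one_div_of_mul_eq_one_left h4
  have h6 : (1 / ((a0 ^ 2 - 2) * (b0 ^ 2 - 2)) : ℚ) ≠ 0 := one_div_ne_zero (mul_ne_zero n1 n2)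
  have h7 := sq_ne_two_sq (x := N / (N ^ 2 - 2)) h6
  rw [hN', hζ] at h5
  have h8 : (((N / (N ^ 2 - 2) : ℚ) : K)) ^ 2 -
      2 * ((1 / ((a0 ^ 2 - 2) * (b0 ^ 2 - 2)) : ℚ) : K) ^ 2 ≠ 0 := by exact_mod_cast h7
  have h9 := (eq_div_iff h8).2 h5
  rw [h9]
  unfold hst
  rw [ha0, hb0]
  push_cast
  rfl

theorem dbl_desc {n : ℤ} (hn : n ≠ 0) {x' y' : K} (h : DblF ((zz n : ℚ) : K) ((yy n : ℚ) : K) x' y') :
    x' = ((zz (2 * n) : ℚ) : K) ∧ y' = ((yy (2 * n) : ℚ) : K) := by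
  obtain ⟨l, hl, h1, h2⟩ := h
  have hy : yy n ≠ 0 := yy_ne hn
  have hy2 : 2 * yy n ≠ 0 := mul_ne_zero two_ne_zero hy
  have hy2K : 2 * ((yy n : ℚ) : K) ≠ 0 := by exact_mod_cast hy2
  set l0 : ℚ := (3 * zz n ^ 2 - 4 * zz n + 65) / (2 * yy n) with hl0
  have hll : l = (l0 : K) := by
    rw [(eq_div_iff hy2K).2 hl, hl0]
    push_cast
    rfl
  have e1 : x' = ((l0 ^ 2 + 2 - 2 * zz n : ℚ) : K) := by rw [h1, hll]; push_cast; rfl
  have e2 : y' = ((-(l0 * ((l0 ^ 2 + 2 - 2 * zz n) - zz n) + yy n) : ℚ) : K) := by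
    rw [h2, hll, e1]; push_cast; rfl
  have h3 : Dbl (zz n) (yy n) (l0 ^ 2 + 2 - 2 * zz n)
      (-(l0 * ((l0 ^ 2 + 2 - 2 * zz n) - zz n) + yy n)) :=
    ⟨l0, div_mul_cancel₀ _ hy2, rfl, rfl⟩
  obtain ⟨h4, h5⟩ := (dbl_iff hn _ _).1 h3
  exact ⟨by rw [e1, h4], by rw [e2, h5]⟩

theorem oct_desc {n : ℤ} (hn : n ≠ 0) {a b : K} (h : OctF ((zz n : ℚ) : K) ((yy n : ℚ) : K) a b) :
    a = ((zz (8 * n) : ℚ) : K) ∧ b = ((yy (8 * n) : ℚ) : K) := by
  have h2 : 2 * n ≠ 0 := mul_ne_zero two_ne_zero hn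
  have h4 : 2 * (2 * n) ≠ 0 := mul_ne_zero two_ne_zero h2
  have h8 : 2 * (2 * (2 * n)) = 8 * n := by ring
  obtain ⟨x1, y1, x2, y2, h, h', h''⟩ := h
  obtain ⟨rfl, rfl⟩ := dbl_desc hn h
  obtain ⟨rfl, rfl⟩ := dbl_desc h2 h'
  obtain ⟨h5, h6⟩ := dbl_desc h4 h''
  rw [h8] at h5 h6
  exact ⟨h5, h6⟩

theorem chd_desc {m n : ℤ} (hm : m ≠ 0) (hn : n ≠ 0) (h : zz m ≠ zz n) {x y : K}
    (hc : ChdF ((zz m : ℚ) : K) ((yy m : ℚ) : K) ((zz n : ℚ) : K) ((yy n : ℚ) : K) x y) :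
    x = ((zz (m + n) : ℚ) : K) ∧ y = ((yy (m + n) : ℚ) : K) := by
  obtain ⟨l, hl, h1, h2⟩ := hc
  have hy2 : zz m - zz n ≠ 0 := sub_ne_zero.2 h
  have hy2K : ((zz m : ℚ) : K) - ((zz n : ℚ) : K) ≠ 0 := by exact_mod_cast hy2
  set l0 : ℚ := (yy m - yy n) / (zz m - zz n) with hl0
  have hll : l = (l0 : K) := by
    rw [(eq_div_iff hy2K).2 hl, hl0]
    push_cast
    rfl
  have e1 : x = ((l0 ^ 2 + 2 - zz m - zz n : ℚ) : K) := by rw [h1, hll]; push_cast; rfl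
  have e2 : y = ((-(l0 * ((l0 ^ 2 + 2 - zz m - zz n) - zz m) + yy m) : ℚ) : K) := by
    rw [h2, hll, e1]; push_cast; rfl
  have h3 : Chd (zz m) (yy m) (zz n) (yy n) (l0 ^ 2 + 2 - zz m - zz n)
      (-(l0 * ((l0 ^ 2 + 2 - zz m - zz n) - zz m) + yy m)) :=
    ⟨l0, div_mul_cancel₀ _ hy2, rfl, rfl⟩
  obtain ⟨h4, h5⟩ := (chd_iff hm hn h _ _).1 h3
  exact ⟨by rw [e1, h4], by rw [e2, h5]⟩

theorem eq_cast_of_mul_one {w : K} {a : ℚ} (h : w * (a : K) = 1) : w = ((1 / a : ℚ) : K) := by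
  push_cast
  exact eq_one_div_of_mul_eq_one_left h

theorem eq_cast_of_mul {w : K} {a b : ℚ} (ha : a ≠ 0) (h : w * (a : K) = (b : K)) :
    w = ((b / a : ℚ) : K) := by
  push_cast
  rw [eq_div_iff (by exact_mod_cast ha)]
  exact h

theorem Good.on (g : Good K) {z y : K} (h : OnF z y) (hs : IsSquare z ∨ IsSquare (5 * z)) :
    ∃ n : ℤ, n ≠ 0 ∧ z = ((zz n : ℚ) : K) ∧ y = ((yy n : ℚ) : K) := by
  obtain ⟨h0, h1⟩ := h
  obtain ⟨⟨z0, rfl⟩, ⟨y0, rfl⟩⟩ := g.stab z y h1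
  have h2 : z0 ≠ 0 := by exact_mod_cast h0
  have h3 : y0 ^ 2 = z0 ^ 3 - 2 * z0 ^ 2 + 65 * z0 := by exact_mod_cast h1
  have h4 : IsSquare z0 ∨ IsSquare (5 * z0) := by
    rcases hs with hs | hs
    · exact Or.inl (g.sq _ hs)
    · right
      apply g.sq
      push_cast
      exact hs
  obtain ⟨n, hn, rfl, rfl⟩ := (gam_iff z0 y0).2 ⟨⟨h2, h3⟩, h4⟩
  exact ⟨n, hn, rfl, rfl⟩

theorem Good.base (g : Good K) {z y w : K} (h : BaseF z y w) :
    ∃ z0 y0 w0 : ℚ, z = z0 ∧ y = y0 ∧ w = w0 ∧ BaseF z0 y0 w0 := by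
  obtain ⟨h1, h2, a, b, h3, h4⟩ := h
  obtain ⟨n, hn, rfl, rfl⟩ := g.on h1 (Or.inr h2)
  obtain ⟨rfl, rfl⟩ := oct_desc hn h3
  have h5 := eq_cast_of_mul_one h4
  refine ⟨zz n, yy n, 1 / zz (8 * n), rfl, rfl, h5, ?_⟩
  rw [base_rat]
  have h6 : IsSquare (5 * zz n) := by
    apply g.sq
    push_cast
    exact h2
  exact ⟨n, (odd_iff hn).2 h6, rfl, rfl, rfl⟩

theorem Good.par (g : Good K) {p : ℕ} {x : ℚ} (h : ParF p (x : K)) : ParQ p x := by
  refine ⟨fun hp => ?_, fun hp => ?_⟩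
  · apply g.sq
    push_cast
    exact h.1 hp
  · exact g.sq _ (h.2 hp)

theorem Good.arr (g : Good K) {p : ℕ} {z y a0 a1 w0 w1 q0 q1 : K}
    (h : ArrF p z y a0 a1 w0 w1 q0 q1) :
    ∃ z' y' a0' a1' w0' w1' q0' q1' : ℚ, z = z' ∧ y = y' ∧ a0 = a0' ∧ a1 = a1' ∧ w0 = w0' ∧
      w1 = w1' ∧ q0 = q0' ∧ q1 = q1' ∧ ArrF p z' y' a0' a1' w0' w1' q0' q1' := by
  obtain ⟨h1, h2, v, u, h3, h4, hvz, x, x', hc, hp, a, b, c, d, e, f, o1, o2, o3,
      e1, e2, e3, e4, e5, e6⟩ := h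
  obtain ⟨M, hM, rfl, rfl⟩ := g.on h1 h2
  obtain ⟨k, hk, rfl, rfl⟩ := g.on h3 h4
  have hvz' : zz k ≠ zz M := by exact_mod_cast hvz
  obtain ⟨rfl, rfl⟩ := chd_desc hk hM hvz' hc
  have hvz2 := hvz'
  rw [Ne, zz_eq_iff hk hM, not_or] at hvz2
  have hn : k + M ≠ 0 := fun h => hvz2.2 (by linarith)
  obtain ⟨rfl, rfl⟩ := oct_desc hM o1
  obtain ⟨rfl, rfl⟩ := oct_desc hk o2
  obtain ⟨rfl, rfl⟩ := oct_desc hn o3
  have h8n : (8 : ℤ) * (k + M) ≠ 0 := mul_ne_zero (by norm_num) hn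
  have h8V : (8 : ℤ) * k ≠ 0 := mul_ne_zero (by norm_num) hk
  have hX : k + M - M = k := by ring
  refine ⟨zz M, yy M, _, _, _, _, _, _, rfl, rfl, eq_cast_of_mul (yy_ne h8n) e1,
    eq_cast_of_mul (yy_ne h8V) e4, eq_cast_of_mul_one e2, eq_cast_of_mul_one e5,
    eq_cast_of_mul (zz_on h8n).1 e3, eq_cast_of_mul (zz_on h8V).1 e6, ?_⟩
  rw [arr_rat]
  refine ⟨M, k + M, hM, hn, fun h => hk (by linarith), fun h => hvz2.1 (by linarith),
      (par_iff p hn).2 (g.par hp), rfl, rfl, ?_⟩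
  unfold arrOf
  rw [hX]

end

end Pool.Agent.Y556.NX
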