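import Mathlib
import Pool.Agent.H528R2.TestIff

/-!
# Valuations of odd type of number fields of odd degree
-/

set_option autoImplicit false
set_option linter.deprecated false

namespace Pool.Agent.Y556.NX

open NumberField IsDedekindDomain WithZero Pool.Agent.H528R2

/-- an additive valuation of odd type above the prime `q` -/
structure OV (K : Type) [Field K] [CharZero K] (q : ℕ) where
  v : K → ℤ
  e : ℤ
  odd_e : Odd e
  pos_e : 0 < e
  v_mul : ∀ {x y : K}, x ≠ 0 → y ≠ 0 → v (x * y) = v x + v y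
  v_rat : ∀ {r : ℚ}, r ≠ 0 → v (r : K) = e * padicValRat q r
  v_add : ∀ {x y : K}, x ≠ 0 → y ≠ 0 → v x < v y → x + y ≠ 0 ∧ v (x + y) = v x
  v_form : ∀ {x y : K}, x ≠ 0 → y ≠ 0 →
    x ^ 2 - 2 * y ^ 2 ≠ 0 ∧ v (x ^ 2 - 2 * y ^ 2) = 2 * min (v x) (v y)

section

variable {K : Type} [Field K] [NumberField K]

/-- for an odd residue degree, `2` is not a square in the residue field -/
theorem two_not_sq {q : ℕ} (hq : Inert q) (P : HeightOneSpectrum (𝓞 K))
    [P.asIdeal.LiesOver (Ideal.span {(q : ℤ)})]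
    (hf : Odd ((Ideal.span {(q : ℤ)}).inertiaDeg' P.asIdeal)) (a : 𝓞 K) :
    a ^ 2 - 2 ∉ P.asIdeal := by
  intro ha
  set f := (Ideal.span {(q : ℤ)}).inertiaDeg' P.asIdeal with hfd
  have hcard : Ideal.absNorm P.asIdeal = q ^ f := Ideal.absNorm_eq_pow_inertiaDeg' P.asIdeal hq.1
  have hmax : P.asIdeal.IsMaximal := P.isMaximal
  letI : Field (𝓞 K ⧸ P.asIdeal) := Ideal.Quotient.field P.asIdeal
  have hfin : Finite (𝓞 K ⧸ P.asIdeal) := by
    refine Nat.finite_of_card_ne_zero ?_
    have h1 : Nat.card (𝓞 K ⧸ P.asIdeal) = q ^ f := hcard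
    rw [h1]
    exact pow_ne_zero _ hq.1.ne_zero
  letI : Fintype (𝓞 K ⧸ P.asIdeal) := Fintype.ofFinite _
  have hc : Fintype.card (𝓞 K ⧸ P.asIdeal) = q ^ f := by
    rw [← Nat.card_eq_fintype_card]; exact hcard
  have hsq : IsSquare (2 : 𝓞 K ⧸ P.asIdeal) := by
    refine ⟨Ideal.Quotient.mk _ a, ?_⟩
    have h1 : Ideal.Quotient.mk P.asIdeal (a ^ 2 - 2) = 0 := Ideal.Quotient.eq_zero_iff_mem.2 ha
    rw [map_sub, map_pow, map_ofNat, sub_eq_zero] at h1
    rw [← h1, sq]
  rw [FiniteField.isSquare_two_iff, hc] at hsq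
  obtain ⟨k, hk⟩ := hf
  have h2 : q ^ f % 8 = q % 8 := by
    rw [hk, pow_succ, pow_mul, Nat.mul_mod, Nat.pow_mod]
    have h3 : q ^ 2 % 8 = 1 := by
      rw [Nat.pow_mod]
      rcases hq.2 with h | h <;> rw [h]
    rw [h3]
    simp
  rw [h2] at hsq
  rcases hq.2 with h | h <;> omega

variable (P : HeightOneSpectrum (𝓞 K))

/-- the additive valuation -/
noncomputable def av (x : K) : ℤ := - log (P.valuation K x)

theorem av_ne {x : K} (hx : x ≠ 0) : P.valuation K x ≠ 0 := (Valuation.ne_zero_iff _).2 hx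

theorem av_mul {x y : K} (hx : x ≠ 0) (hy : y ≠ 0) : av P (x * y) = av P x + av P y := by
  unfold av
  rw [map_mul, log_mul (av_ne P hx) (av_ne P hy)]
  ring

theorem av_lt {x y : K} (hx : x ≠ 0) (hy : y ≠ 0) :
    av P x < av P y ↔ P.valuation K y < P.valuation K x := by
  unfold av
  rw [neg_lt_neg_iff, log_lt_log (av_ne P hy) (av_ne P hx)]

theorem av_add {x y : K} (hx : x ≠ 0) (hy : y ≠ 0) (h : av P x < av P y) :
    x + y ≠ 0 ∧ av P (x + y) = av P x := by
  rw [av_lt P hx hy] at h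
  have h1 : P.valuation K (x + y) = P.valuation K x := Valuation.map_add_eq_of_lt_left _ h
  refine ⟨?_, by unfold av; rw [h1]⟩
  rw [← Valuation.ne_zero_iff (P.valuation K), h1]
  exact av_ne P hx

theorem val_int_le (a : 𝓞 K) : P.valuation K (algebraMap (𝓞 K) K a) ≤ 1 :=
  P.valuation_le_one a

theorem val_two_le : P.valuation K (2 : K) ≤ 1 := by
  have := val_int_le P (2 : 𝓞 K)
  rwa [map_ofNat] at this

theorem av_form {q : ℕ} (hq : Inert q) [P.asIdeal.LiesOver (Ideal.span {(q : ℤ)})]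
    (hf : Odd ((Ideal.span {(q : ℤ)}).inertiaDeg' P.asIdeal)) {x y : K} (hx : x ≠ 0)
    (hy : y ≠ 0) :
    x ^ 2 - 2 * y ^ 2 ≠ 0 ∧ av P (x ^ 2 - 2 * y ^ 2) = 2 * min (av P x) (av P y) := by
  have hVy := av_ne P hy
  have hVx := av_ne P hx
  rcases lt_or_ge (P.valuation K y) (P.valuation K x) with h | h
  · have h1 : P.valuation K (x ^ 2 - 2 * y ^ 2) = P.valuation K x ^ 2 := by
      rw [← map_pow]
      apply Valuation.map_sub_eq_of_lt_left
      rw [map_mul, map_pow, map_pow]
      calc P.valuation K 2 * P.valuation K y ^ 2 ≤ 1 * P.valuation K y ^ 2 :=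
            mul_le_mul_left (val_two_le P) _
        _ = P.valuation K y ^ 2 := one_mul _
        _ < P.valuation K x ^ 2 := pow_lt_pow_left₀ h zero_le (by norm_num)
    constructor
    · rw [← Valuation.ne_zero_iff (P.valuation K), h1]
      exact pow_ne_zero _ hVx
    · have h2 := (av_lt P hx hy).2 h
      rw [min_eq_left h2.le]
      unfold av
      rw [h1, log_pow]
      simp
  · set t := x / y with ht
    have hxt : x = y * t := by rw [ht]; field_simp
    have hVt : P.valuation K t ≤ 1 := by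
      rw [ht, map_div₀]
      exact div_le_one_of_le₀ h zero_le
    obtain ⟨a, ha⟩ := P.exists_valuation_sub_lt_of_integer hVt 1
    rw [Units.val_one] at ha
    have h1 : P.valuation K (algebraMap (𝓞 K) K (a ^ 2 - 2)) = 1 :=
      (HeightOneSpectrum.valuation_eq_one_iff_notMem P).2 (two_not_sq hq P hf a)
    rw [map_sub, map_pow, map_ofNat] at h1
    have h2 : P.valuation K (algebraMap (𝓞 K) K a ^ 2 - t ^ 2) < 1 := by
      have : algebraMap (𝓞 K) K a ^ 2 - t ^ 2 = (algebraMap (𝓞 K) K a - t) *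
        (algebraMap (𝓞 K) K a + t) := by ring
      rw [this, map_mul]
      have h3 : P.valuation K (algebraMap (𝓞 K) K a + t) ≤ 1 :=
        (Valuation.map_add _ _ _).trans (max_le (val_int_le P a) hVt)
      calc P.valuation K (algebraMap (𝓞 K) K a - t) * P.valuation K (algebraMap (𝓞 K) K a + t)
          ≤ P.valuation K (algebraMap (𝓞 K) K a - t) * 1 := mul_le_mul_right h3 _
        _ < 1 := by rw [mul_one]; exact ha
    have h4 : P.valuation K (t ^ 2 - 2) = 1 := by
      have e1 : t ^ 2 - 2 = (algebraMap (𝓞 K) K a ^ 2 - 2) - (algebraMap (𝓞 K) K a ^ 2 - t ^ 2) := by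
        ring
      rw [e1]
      rw [← h1]
      apply Valuation.map_sub_eq_of_lt_left
      rw [h1]
      exact h2
    have h5 : P.valuation K (x ^ 2 - 2 * y ^ 2) = P.valuation K y ^ 2 := by
      have e2 : x ^ 2 - 2 * y ^ 2 = y ^ 2 * (t ^ 2 - 2) := by rw [hxt]; ring
      rw [e2, map_mul, h4, mul_one, map_pow]
    constructor
    · rw [← Valuation.ne_zero_iff (P.valuation K), h5]
      exact pow_ne_zero _ hVy
    · have h6 : av P y ≤ av P x := by
        unfold av
        rw [neg_le_neg_iff, log_le_log hVx hVy]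
        exact h
      rw [min_eq_right h6]
      unfold av
      rw [h5, log_pow]
      simp

theorem av_one : av P (1 : K) = 0 := by
  unfold av
  rw [map_one]
  simp

theorem av_nat {q : ℕ} (hq : q.Prime) [hP : P.asIdeal.LiesOver (Ideal.span {(q : ℤ)})] {n : ℕ}
    (hn : n ≠ 0) : av P (n : K) = av P (q : K) * padicValNat q n := by
  have := Fact.mk hq
  obtain ⟨k, m, hm, rfl⟩ := Nat.exists_eq_pow_mul_and_not_dvd hn q hq.ne_one
  have hm0 : m ≠ 0 := by rintro rfl; exact hm (dvd_zero _)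
  have hqK : (q : K) ≠ 0 := by exact_mod_cast hq.ne_zero
  have hmK : (m : K) ≠ 0 := by exact_mod_cast hm0
  have h1 : padicValNat q (q ^ k * m) = k := by
    rw [padicValNat.mul (pow_ne_zero _ hq.ne_zero) hm0, padicValNat.prime_pow,
      padicValNat.eq_zero_of_not_dvd hm, add_zero]
  have h2 : av P (m : K) = 0 := by
    have h3 : (m : 𝓞 K) ∉ P.asIdeal := by
      intro h4
      apply hm
      have h5 : (m : ℤ) ∈ Ideal.span {(q : ℤ)} := by
        rw [Ideal.mem_of_liesOver (P := P.asIdeal) (p := Ideal.span {(q : ℤ)})]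
        simpa using h4
      rw [Ideal.mem_span_singleton] at h5
      exact_mod_cast h5
    have h6 : P.valuation K (algebraMap (𝓞 K) K (m : 𝓞 K)) = 1 :=
      (HeightOneSpectrum.valuation_eq_one_iff_notMem P).2 h3
    rw [map_natCast] at h6
    unfold av
    rw [h6]
    simp
  rw [h1]
  push_cast
  rw [av_mul P (pow_ne_zero _ hqK) hmK, h2, add_zero]
  unfold av
  rw [map_pow, log_pow]
  simp [mul_comm]

theorem av_rat {q : ℕ} (hq : q.Prime) [hP : P.asIdeal.LiesOver (Ideal.span {(q : ℤ)})] {r : ℚ}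
    (hr : r ≠ 0) : av P (r : K) = av P (q : K) * padicValRat q r := by
  have hd : (r.den : K) ≠ 0 := by exact_mod_cast r.den_nz
  have hn0 : r.num.natAbs ≠ 0 := Int.natAbs_ne_zero.2 (Rat.num_ne_zero.2 hr)
  have hrK : (r : K) ≠ 0 := by exact_mod_cast hr
  have h1 : (r : K) * (r.den : K) = (r.num : K) := by
    have : ((r * r.den : ℚ) : K) = ((r.num : ℚ) : K) := by rw [Rat.mul_den_eq_num]
    push_cast at this
    exact this
  have h2 : av P (r.num : K) = av P (r.num.natAbs : K) := by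
    rcases Int.natAbs_eq r.num with h | h
    · conv_lhs => rw [h]
      rw [Int.cast_natCast]
    · conv_lhs => rw [h]
      rw [Int.cast_neg, Int.cast_natCast]
      unfold av
      rw [Valuation.map_neg]
  have h3 := av_mul P hrK hd
  rw [h1, h2, av_nat P hq hn0, av_nat P hq r.den_nz] at h3
  rw [padicValRat_def, padicValInt]
  linarith

theorem av_q {q : ℕ} (hq : q.Prime) [hP : P.asIdeal.LiesOver (Ideal.span {(q : ℤ)})] :
    av P (q : K) = (Ideal.ramificationIdx' (Ideal.span {(q : ℤ)}) P.asIdeal : ℕ) := by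
  have hqz : (q : ℤ) ≠ 0 := by exact_mod_cast hq.ne_zero
  have hp0 : Ideal.span {(q : ℤ)} ≠ ⊥ := by simpa using hqz
  have hprime : (Ideal.span {(q : ℤ)}).IsPrime := by
    rw [Ideal.span_singleton_prime hqz]
    exact Nat.prime_iff_prime_int.mp hq
  let v0 : HeightOneSpectrum ℤ := ⟨Ideal.span {(q : ℤ)}, hprime, hp0⟩
  haveI : P.asIdeal.LiesOver v0.asIdeal := hP
  have h1 : v0.intValuation (q : ℤ) = exp (-1 : ℤ) := v0.intValuation_singleton hqz rfl
  have h2 := HeightOneSpectrum.intValuation_liesOver v0 P (q : ℤ)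
  rw [h1] at h2
  have h3 : P.valuation K (q : K) = P.intValuation (algebraMap ℤ (𝓞 K) (q : ℤ)) := by
    rw [← HeightOneSpectrum.valuation_of_algebraMap (K := K)]
    simp
  unfold av
  rw [h3, ← h2, log_pow]
  simp
  rfl

end

/-- a number field of odd degree has valuations of odd type above all inert primes -/
theorem exists_OV (K : Type) [Field K] [NumberField K] (hK : Odd (Module.finrank ℚ K)) {q : ℕ}
    (hq : Inert q) : Nonempty (OV K q) := by
  have hqz : (q : ℤ) ≠ 0 := by exact_mod_cast hq.1.ne_zero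
  have hp0 : Ideal.span {(q : ℤ)} ≠ ⊥ := by simpa using hqz
  have hprime : (Ideal.span {(q : ℤ)}).IsPrime := by
    rw [Ideal.span_singleton_prime hqz]
    exact Nat.prime_iff_prime_int.mp hq.1
  haveI hmax : (Ideal.span {(q : ℤ)}).IsMaximal := hprime.isMaximal hp0
  have hsum := Ideal.sum_ramification_inertia (𝓞 K) ℚ K hp0
  obtain ⟨Q, hQ, hodd⟩ : ∃ Q ∈ IsDedekindDomain.primesOverFinset (Ideal.span {(q : ℤ)}) (𝓞 K),
      Odd (Ideal.ramificationIdx' (Ideal.span {(q : ℤ)}) Q *
        Ideal.inertiaDeg' (Ideal.span {(q : ℤ)}) Q) := by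
    by_contra hcon
    push Not at hcon
    have h1 : Even (∑ P ∈ IsDedekindDomain.primesOverFinset (Ideal.span {(q : ℤ)}) (𝓞 K),
        Ideal.ramificationIdx' (Ideal.span {(q : ℤ)}) P *
          Ideal.inertiaDeg' (Ideal.span {(q : ℤ)}) P) :=
      Finset.even_sum _ fun P hP => Nat.not_odd_iff_even.1 (hcon P hP)
    rw [hsum] at h1
    exact Nat.not_even_iff_odd.2 hK h1
  obtain ⟨hQ1, hQ2⟩ := (IsDedekindDomain.mem_primesOverFinset_iff hp0 _).mp hQ
  have hQ0 : Q ≠ ⊥ := by
    rintro rfl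
    have h2 : (q : ℤ) ∈ Ideal.span {(q : ℤ)} := Ideal.mem_span_singleton_self _
    rw [Ideal.mem_of_liesOver (P := (⊥ : Ideal (𝓞 K))) (p := Ideal.span {(q : ℤ)})] at h2
    simp at h2
    exact hq.1.ne_zero h2
  let P : HeightOneSpectrum (𝓞 K) := ⟨Q, hQ1, hQ0⟩
  haveI : P.asIdeal.LiesOver (Ideal.span {(q : ℤ)}) := hQ2
  rw [Nat.odd_mul] at hodd
  have hf : Odd ((Ideal.span {(q : ℤ)}).inertiaDeg' P.asIdeal) := hodd.2
  have he := av_q P hq.1
  have he' : Odd (av P (q : K)) := by
    rw [he]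
    exact_mod_cast hodd.1
  refine ⟨⟨av P, av P (q : K), he', ?_, av_mul P, av_rat P hq.1, av_add P, av_form P hq hf⟩⟩
  have h0 : 0 ≤ av P (q : K) := by rw [he]; positivity
  rcases h0.lt_or_eq with h | h
  · exact h
  · rw [← h] at he'
    exact absurd he' (by decide)

end Pool.Agent.Y556.NX
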